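import Mathlib

/-!
# The numerical inequality behind the union bound
-/

set_option autoImplicit false

namespace H104LHC

theorem pow_self_le (n : ℕ) : n ^ n ≤ 3 ^ n * n.factorial := by
  have h1 := Real.pow_div_factorial_le_exp (n : ℝ) (Nat.cast_nonneg n) n
  have h2 : Real.exp (n : ℝ) ≤ 3 ^ n := by
    have h3 : Real.exp (n : ℝ) = Real.exp 1 ^ n := by
      rw [← Real.exp_nat_mul, mul_one]
    rw [h3]
    exact pow_le_pow_left₀ (Real.exp_pos 1).le (Real.exp_one_lt_three).le n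
  have h4 : (0 : ℝ) < n.factorial := by exact_mod_cast Nat.factorial_pos n
  have h5 := h1.trans h2
  rw [div_le_iff₀ h4] at h5
  exact_mod_cast h5

theorem num_ineq (c μ : ℕ) (hc : 0 < c) (hμ : 0 < μ) (n k : ℕ) (hk : 1 ≤ k)
    (h : k * (2 * μ * 192 ^ (2 * c) * c) ≤ n) :
    (4 * n ^ 3) * (2 ^ n * ((μ * k) ^ (n / c) * n ^ (n - n / c))) < n.factorial ∧ c ≤ n := by
  set r := n / c with hr
  have hP : 0 < 192 ^ (2 * c) := by positivity
  have hcn : c ≤ n := by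
    refine le_trans ?_ h
    have h1 : 1 * c ≤ k * (2 * μ * 192 ^ (2 * c)) * c := by
      refine Nat.mul_le_mul_right c ?_
      have : 0 < k * (2 * μ * 192 ^ (2 * c)) := by positivity
      omega
    calc c = 1 * c := (one_mul c).symm
      _ ≤ _ := h1
      _ = _ := by ring
  refine ⟨?_, hcn⟩
  have hr1 : 1 ≤ r := (Nat.one_le_div_iff hc).2 hcn
  have hn2 : n ≤ 2 * c * r := by
    have h1 : n < c * (r + 1) := by
      have := Nat.lt_mul_div_succ n hc
      rw [hr]; exact this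
    have h2 : c * (r + 1) ≤ 2 * c * r := by nlinarith
    omega
  have hrn : r ≤ n := Nat.div_le_self _ _
  have h1 : (μ * k) * (2 * 192 ^ (2 * c)) ≤ n := by
    refine le_trans ?_ h
    calc (μ * k) * (2 * 192 ^ (2 * c)) = k * (2 * μ * 192 ^ (2 * c)) * 1 := by ring
      _ ≤ k * (2 * μ * 192 ^ (2 * c)) * c := Nat.mul_le_mul_left _ hc
      _ = _ := by ring
  have h2 : (μ * k) ^ r * (2 ^ r * 192 ^ n) ≤ n ^ r := by
    calc (μ * k) ^ r * (2 ^ r * 192 ^ n) ≤ (μ * k) ^ r * (2 ^ r * 192 ^ (2 * c * r)) := by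
          refine Nat.mul_le_mul_left _ (Nat.mul_le_mul_left _ ?_)
          exact Nat.pow_le_pow_right (by norm_num) hn2
      _ = ((μ * k) * (2 * 192 ^ (2 * c))) ^ r := by
          rw [mul_pow (μ * k), mul_pow 2, ← pow_mul]
      _ ≤ n ^ r := Nat.pow_le_pow_left h1 r
  have h3 : 4 * n ^ 3 ≤ 32 ^ n := by
    have hn1 : 1 ≤ n := le_trans hc hcn
    have h4 : n ^ 3 ≤ 8 ^ n := by
      calc n ^ 3 ≤ (2 ^ n) ^ 3 := Nat.pow_le_pow_left (Nat.lt_two_pow_self).le 3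
        _ = 8 ^ n := by rw [← pow_mul, mul_comm, pow_mul]; norm_num
    have h5 : 4 ≤ 4 ^ n := by
      calc 4 = 4 ^ 1 := by norm_num
        _ ≤ 4 ^ n := Nat.pow_le_pow_right (by norm_num) hn1
    calc 4 * n ^ 3 ≤ 4 ^ n * 8 ^ n := Nat.mul_le_mul h5 h4
      _ = 32 ^ n := by rw [← mul_pow]; norm_num
  have h6 : n ^ r * n ^ (n - r) = n ^ n := by
    rw [← pow_add]; congr 1; omega
  have h7 := pow_self_le n
  have hfac := Nat.factorial_pos n
  have h8 : (4 * n ^ 3) * (2 ^ n * ((μ * k) ^ r * n ^ (n - r))) * (2 ^ r * 192 ^ n) ≤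
      n.factorial * 192 ^ n := by
    calc (4 * n ^ 3) * (2 ^ n * ((μ * k) ^ r * n ^ (n - r))) * (2 ^ r * 192 ^ n)
        = (4 * n ^ 3) * 2 ^ n * ((μ * k) ^ r * (2 ^ r * 192 ^ n)) * n ^ (n - r) := by ring
      _ ≤ 32 ^ n * 2 ^ n * n ^ r * n ^ (n - r) := by gcongr
      _ = 32 ^ n * 2 ^ n * n ^ n := by rw [mul_assoc, h6]
      _ ≤ 32 ^ n * 2 ^ n * (3 ^ n * n.factorial) := Nat.mul_le_mul_left _ h7
      _ = (32 * 2 * 3) ^ n * n.factorial := by rw [mul_pow, mul_pow]; ring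
      _ = n.factorial * 192 ^ n := by norm_num [mul_comm]
  by_contra hcon
  rw [not_lt] at hcon
  have h9 : n.factorial * (2 ^ r * 192 ^ n) ≤ n.factorial * 192 ^ n :=
    (Nat.mul_le_mul_right _ hcon).trans h8
  have h10 := Nat.le_of_mul_le_mul_left h9 hfac
  have h11 : 2 ≤ 2 ^ r := by
    calc 2 = 2 ^ 1 := by norm_num
      _ ≤ 2 ^ r := Nat.pow_le_pow_right (by norm_num) hr1
  have h12 : 0 < 192 ^ n := by positivity
  nlinarith

end H104LHC
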