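import Mathlib

/-!
# Counting random isotopies
-/

set_option autoImplicit false

namespace H104LHC

open Finset

section

variable {α : Type} [Fintype α] [DecidableEq α]

open Classical in
/-- number of functions meeting a sparse family of sets often -/
theorem fun_count (F : α → Finset α) (k' r : ℕ) (hF : ∀ x, (F x).card ≤ k')
    (hr : r ≤ Fintype.card α) :
    (univ.filter (fun f : α → α => r ≤ (univ.filter (fun x => f x ∈ F x)).card)).card ≤
      2 ^ Fintype.card α * (k' ^ r * Fintype.card α ^ (Fintype.card α - r)) := by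
  set n := Fintype.card α with hn
  have hsub : univ.filter (fun f : α → α => r ≤ (univ.filter (fun x => f x ∈ F x)).card) ⊆
      (univ.powersetCard r).biUnion
        (fun A : Finset α => Fintype.piFinset (fun x => if x ∈ A then F x else univ)) := by
    intro f hf
    rw [mem_filter] at hf
    obtain ⟨A, hA, hAr⟩ := exists_subset_card_eq hf.2
    rw [mem_biUnion]
    refine ⟨A, mem_powersetCard.2 ⟨subset_univ _, hAr⟩, ?_⟩
    rw [Fintype.mem_piFinset]
    intro x
    by_cases hx : x ∈ A
    · rw [if_pos hx]; exact (mem_filter.1 (hA hx)).2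
    · rw [if_neg hx]; exact mem_univ _
  have hone : ∀ A ∈ (univ : Finset α).powersetCard r,
      (Fintype.piFinset (fun x => if x ∈ A then F x else univ)).card ≤ k' ^ r * n ^ (n - r) := by
    intro A hA
    rw [Fintype.card_piFinset]
    have hAr := (mem_powersetCard.1 hA).2
    calc ∏ x, (if x ∈ A then F x else univ).card
        ≤ ∏ x, (if x ∈ A then k' else n) := by
          refine prod_le_prod' fun x _ => ?_
          by_cases hx : x ∈ A
          · rw [if_pos hx, if_pos hx]; exact hF x
          · rw [if_neg hx, if_neg hx]; exact le_of_eq card_univ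
      _ = k' ^ r * n ^ (n - r) := by
          rw [prod_ite, prod_const, prod_const]
          congr 2
          · rw [← hAr]; congr 1; ext x; simp
          · rw [← hAr, hn, ← card_compl]; congr 1; ext x; simp
  calc _ ≤ _ := card_le_card hsub
    _ ≤ ∑ A ∈ univ.powersetCard r,
        (Fintype.piFinset (fun x => if x ∈ A then F x else univ)).card := card_biUnion_le
    _ ≤ ∑ _A ∈ (univ : Finset α).powersetCard r, k' ^ r * n ^ (n - r) := sum_le_sum hone
    _ = ((univ : Finset α).powersetCard r).card * (k' ^ r * n ^ (n - r)) := by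
        rw [sum_const, smul_eq_mul]
    _ ≤ 2 ^ n * (k' ^ r * n ^ (n - r)) := by
        refine Nat.mul_le_mul_right _ ?_
        rw [card_powersetCard, card_univ]
        exact Nat.choose_le_two_pow _ _

open Classical in
theorem perm_count (F : α → Finset α) (k' r : ℕ) (hF : ∀ x, (F x).card ≤ k')
    (hr : r ≤ Fintype.card α) :
    (univ.filter (fun π : Equiv.Perm α => r ≤ (univ.filter (fun x => π x ∈ F x)).card)).card ≤
      2 ^ Fintype.card α * (k' ^ r * Fintype.card α ^ (Fintype.card α - r)) := by
  refine le_trans ?_ (fun_count F k' r hF hr)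
  refine card_le_card_of_injOn (fun π => (π : α → α)) ?_ ?_
  · intro π hπ
    rw [mem_coe, mem_filter] at hπ ⊢
    exact ⟨mem_univ _, hπ.2⟩
  · intro π _ π' _ h
    exact Equiv.coe_fn_injective h

open Classical in
/-- For a labelled family of points of `α⁴` with bounded multiplicities in the coordinate `q` and a
sparse set `E`, few isotopies send many of the points into `E`. -/
theorem iso_count {Λ : Type} (E : (Fin 4 → α) → Prop) (k : ℕ)
    (hE : ∀ (x : Fin 4 → α) (q : Fin 4),
      (univ.filter (fun z => E (Function.update x q z))).card ≤ k)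
    (X : Finset Λ) (pt : Λ → Fin 4 → α) (q : Fin 4) (μ : ℕ)
    (hμ : ∀ y, (X.filter (fun e => pt e q = y)).card ≤ μ) (r m : ℕ) (hm : μ * r ≤ m)
    (hr : r ≤ Fintype.card α) :
    (univ.filter (fun σ : Fin 4 → Equiv.Perm α =>
      m < (X.filter (fun e => E (fun j => σ j (pt e j)))).card)).card ≤
      (2 ^ Fintype.card α * ((μ * k) ^ r * Fintype.card α ^ (Fintype.card α - r))) *
        (Fintype.card α).factorial ^ 3 := by
  set n := Fintype.card α with hn
  set B := 2 ^ n * ((μ * k) ^ r * n ^ (n - r)) with hB
  set S := univ.filter (fun σ : Fin 4 → Equiv.Perm α =>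
      m < (X.filter (fun e => E (fun j => σ j (pt e j)))).card) with hS
  set rest : (Fin 4 → Equiv.Perm α) → ({j : Fin 4 // j ≠ q} → Equiv.Perm α) :=
    fun σ j => σ j with hrest
  have hfib : ∀ ρ ∈ S.image rest, (S.filter (fun σ => rest σ = ρ)).card ≤ B := by
    intro ρ hρ
    rw [mem_image] at hρ
    obtain ⟨σ0, _, hσ0⟩ := hρ
    set F : α → Finset α := fun y => univ.filter (fun z => ∃ e ∈ X, pt e q = y ∧
      E (Function.update (fun j => σ0 j (pt e j)) q z)) with hF
    have hFc : ∀ y, (F y).card ≤ μ * k := by
      intro y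
      have hsub : F y ⊆ (X.filter (fun e => pt e q = y)).biUnion (fun e =>
          univ.filter (fun z => E (Function.update (fun j => σ0 j (pt e j)) q z))) := by
        intro z hz
        rw [hF, mem_filter] at hz
        obtain ⟨_, e, he, he1, he2⟩ := hz
        rw [mem_biUnion]
        exact ⟨e, mem_filter.2 ⟨he, he1⟩, mem_filter.2 ⟨mem_univ _, he2⟩⟩
      calc (F y).card ≤ _ := card_le_card hsub
        _ ≤ ∑ e ∈ X.filter (fun e => pt e q = y),
            (univ.filter (fun z => E (Function.update (fun j => σ0 j (pt e j)) q z))).card :=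
          card_biUnion_le
        _ ≤ ∑ _e ∈ X.filter (fun e => pt e q = y), k := sum_le_sum fun e _ => hE _ _
        _ = (X.filter (fun e => pt e q = y)).card * k := by rw [sum_const, smul_eq_mul]
        _ ≤ μ * k := Nat.mul_le_mul_right _ (hμ y)
    refine le_trans ?_ (perm_count F (μ * k) r hFc hr)
    refine card_le_card_of_injOn (fun σ => σ q) ?_ ?_
    · intro σ hσ
      rw [mem_coe, mem_filter] at hσ
      obtain ⟨hσ1, hσ2⟩ := hσ
      rw [hS, mem_filter] at hσ1
      rw [mem_coe, mem_filter]
      refine ⟨mem_univ _, ?_⟩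
      beta_reduce
      have hagree : ∀ j, j ≠ q → σ j = σ0 j := by
        intro j hj
        have h1 : rest σ ⟨j, hj⟩ = rest σ0 ⟨j, hj⟩ := by rw [hσ2, hσ0]
        exact h1
      have h2 : (X.filter (fun e => E (fun j => σ j (pt e j)))).card ≤
          μ * (univ.filter (fun x => σ q x ∈ F x)).card := by
        refine (card_le_mul_card_image (f := fun e => pt e q) _ μ ?_).trans
          (Nat.mul_le_mul_left μ (card_le_card ?_))
        · intro y _
          refine (card_le_card ?_).trans (hμ y)
          intro e he
          rw [mem_filter, mem_filter] at he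
          exact mem_filter.2 ⟨he.1.1, he.2⟩
        · intro y hy
          rw [mem_image] at hy
          obtain ⟨e, he, hey⟩ := hy
          rw [mem_filter] at he
          rw [mem_filter]
          refine ⟨mem_univ _, ?_⟩
          rw [hF, mem_filter]
          refine ⟨mem_univ _, e, he.1, hey, ?_⟩
          have h3 : Function.update (fun j => σ0 j (pt e j)) q (σ q y) =
              fun j => σ j (pt e j) := by
            funext j
            by_cases hj : j = q
            · subst hj
              rw [Function.update_self, ← hey]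
            · rw [Function.update_of_ne hj, hagree j hj]
          rw [h3]
          exact he.2
      by_contra hcon
      rw [not_le] at hcon
      have h4 : μ * (univ.filter (fun x => σ q x ∈ F x)).card ≤ μ * r :=
        Nat.mul_le_mul_left μ hcon.le
      have h5 := hσ1.2
      omega
    · intro σ hσ σ' hσ' h
      rw [mem_coe, mem_filter] at hσ hσ'
      funext j
      by_cases hj : j = q
      · subst hj; exact h
      · have h1 : rest σ ⟨j, hj⟩ = rest σ' ⟨j, hj⟩ := by rw [hσ.2, hσ'.2]
        exact h1
  have h1 := card_le_mul_card_image (f := rest) S B hfib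
  refine h1.trans (Nat.mul_le_mul_left B ?_)
  refine (card_le_univ _).trans (le_of_eq ?_)
  rw [Fintype.card_fun, Fintype.card_perm]
  congr 1
  rw [Fintype.card_subtype_compl]
  simp

open Classical in
/-- union bound over finitely many families -/
theorem exists_iso {Λ J : Type} [Fintype J] (E : (Fin 4 → α) → Prop) (k : ℕ)
    (hE : ∀ (x : Fin 4 → α) (q : Fin 4),
      (univ.filter (fun z => E (Function.update x q z))).card ≤ k)
    (X : J → Finset Λ) (pt : J → Λ → Fin 4 → α) (q : J → Fin 4) (μ : ℕ)
    (hμ : ∀ j y, ((X j).filter (fun e => pt j e (q j) = y)).card ≤ μ) (r m : ℕ) (hm : μ * r ≤ m)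
    (hr : r ≤ Fintype.card α)
    (hnum : Fintype.card J * (2 ^ Fintype.card α *
      ((μ * k) ^ r * Fintype.card α ^ (Fintype.card α - r))) < (Fintype.card α).factorial) :
    ∃ σ : Fin 4 → Equiv.Perm α, ∀ j,
      ((X j).filter (fun e => E (fun i => σ i (pt j e i)))).card ≤ m := by
  by_contra hcon
  push Not at hcon
  have hsub : (univ : Finset (Fin 4 → Equiv.Perm α)) ⊆ (univ : Finset J).biUnion (fun j =>
      univ.filter (fun σ : Fin 4 → Equiv.Perm α =>
      m < ((X j).filter (fun e => E (fun i => σ i (pt j e i)))).card)) := by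
    intro σ _
    obtain ⟨j, hj⟩ := hcon σ
    rw [mem_biUnion]
    exact ⟨j, mem_univ _, mem_filter.2 ⟨mem_univ _, hj⟩⟩
  have h1 := (card_le_card hsub).trans card_biUnion_le
  have h2 := h1.trans (sum_le_sum fun j _ =>
    iso_count E k hE (X j) (pt j) (q j) μ (hμ j) r m hm hr)
  rw [sum_const, smul_eq_mul, card_univ, card_univ, Fintype.card_fun, Fintype.card_perm,
    Fintype.card_fin] at h2
  set n := Fintype.card α
  have h3 : 0 < n.factorial ^ 3 := pow_pos (Nat.factorial_pos _) 3
  have h4 := Nat.mul_lt_mul_of_pos_right hnum h3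
  have h5 : n.factorial * n.factorial ^ 3 = n.factorial ^ 4 := by ring
  rw [h5] at h4
  have h6 : Fintype.card J * (2 ^ n * ((μ * k) ^ r * n ^ (n - r)) * n.factorial ^ 3) =
    Fintype.card J * (2 ^ n * ((μ * k) ^ r * n ^ (n - r))) * n.factorial ^ 3 := by ring
  rw [h6] at h2
  exact absurd h2 (not_le.2 h4)

end

end H104LHC
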