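import Pool.Agent.H104_LHC.Switch
import Pool.Agent.H104_LHC.Perm
import Pool.Agent.H104_LHC.Num

/-!
# A spread system yields Latin cubes avoiding sparse sets
-/

set_option autoImplicit false

namespace H104LHC

open Finset

namespace SpreadSys

variable {α : Type} {K d : ℕ} [Fintype α] [DecidableEq α] (S : SpreadSys α K d)

/-- labelled points -/
def lab (s : α) (e : α × α × α × Bool × Bool) : Fin 4 → α :=
  S.pt (if e.2.2.2.1 then e.1 else s) (if e.2.2.2.2 then e.1 else s) e.2.1 e.2.2.1

/-- the condition that the coordinate `q` of the labelled point is spread -/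
def cond (s i l : α) (q : Fin 4) (e : α × α × α × Bool × Bool) : Prop :=
  (q = 0 ∧ e.2.1 ∉ S.cls s i) ∨ (q = 1 ∧ e.2.1 ∈ S.cls s i ∧ e.2.2.2.1 = true) ∨
    (q = 2 ∧ e.2.2.1 ∉ S.cls s l) ∨ (q = 3 ∧ e.2.2.1 ∈ S.cls s l ∧ e.2.2.2.2 = true)

open Classical in
/-- the family of labelled points -/
noncomputable def fam (s i l : α) (q : Fin 4) : Finset (α × α × α × Bool × Bool) :=
  univ.filter (fun e => S.adj s e.1 ∧ e.2.1 ∈ S.blk s e.1 i ∧ e.2.2.1 ∈ S.blk s e.1 l ∧
    S.cond s i l q e)

theorem mem_fam {s i l : α} {q : Fin 4} {e : α × α × α × Bool × Bool} :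
    e ∈ S.fam s i l q ↔ S.adj s e.1 ∧ e.2.1 ∈ S.blk s e.1 i ∧ e.2.2.1 ∈ S.blk s e.1 l ∧
    S.cond s i l q e := by
  classical
  unfold fam
  rw [mem_filter]
  simp

theorem fam_mult (s i l : α) (q : Fin 4) (y : α) :
    ((S.fam s i l q).filter (fun e => S.lab s e q = y)).card ≤ 4 * K * K := by
  classical
  by_cases hemp : ∃ t, S.adj s t
  swap
  · have : (S.fam s i l q).filter (fun e => S.lab s e q = y) = ∅ := by
      rw [filter_eq_empty_iff]
      intro e he
      rw [mem_fam] at he
      exact absurd ⟨_, he.1⟩ hemp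
    rw [this]; simp
  obtain ⟨t0, ht0⟩ := hemp
  have hcls : ∀ x, (S.cls s x).card ≤ K := fun x =>
    (card_le_card (S.cls_sub x ht0)).trans (S.blk_card x ht0)
  -- boxes
  have hbox : ∀ t x, S.adj s t → ∀ z, (({t} : Finset α) ×ˢ (({z} : Finset α) ×ˢ (S.blk s t x ×ˢ
      ((univ : Finset Bool) ×ˢ (univ : Finset Bool))))).card ≤ 4 * K := by
    intro t x ht z
    rw [card_product, card_product, card_product, card_product, card_singleton, card_singleton,
      card_univ, Fintype.card_bool]
    have := S.blk_card x ht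
    omega
  have hbox' : ∀ t x, S.adj s t → ∀ z, (({t} : Finset α) ×ˢ (S.blk s t x ×ˢ (({z} : Finset α) ×ˢ
      ((univ : Finset Bool) ×ˢ (univ : Finset Bool))))).card ≤ 4 * K := by
    intro t x ht z
    rw [card_product, card_product, card_product, card_product, card_singleton, card_singleton,
      card_univ, Fintype.card_bool]
    have := S.blk_card x ht
    omega
  have hcases : q = 0 ∨ q = 1 ∨ q = 2 ∨ q = 3 := by
    revert q; decide
  rcases hcases with rfl | rfl | rfl | rfl
  · -- coordinate 0
    by_cases hy : y ∈ S.cls s i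
    · have : (S.fam s i l 0).filter (fun e => S.lab s e 0 = y) = ∅ := by
        rw [filter_eq_empty_iff]
        intro e he hey
        rw [mem_fam] at he
        obtain ⟨_, _, _, hc⟩ := he
        simp only [cond, Fin.isValue, true_and, zero_ne_one, false_and, Fin.reduceEq,
          or_false] at hc
        apply hc
        have h1 : e.2.1 = y := hey
        rw [h1]; exact hy
      rw [this]; simp
    · obtain ⟨W, hW1, hW2⟩ := S.spread s i y hy
      have hsub : (S.fam s i l 0).filter (fun e => S.lab s e 0 = y) ⊆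
          (W.filter (fun t => S.adj s t)).biUnion (fun t => ({t} : Finset α) ×ˢ (({y} : Finset α)
            ×ˢ (S.blk s t l ×ˢ ((univ : Finset Bool) ×ˢ (univ : Finset Bool))))) := by
        intro e he
        rw [mem_filter, mem_fam] at he
        obtain ⟨⟨h1, h2, h3, _⟩, hey⟩ := he
        have h4 : e.2.1 = y := hey
        rw [mem_biUnion]
        refine ⟨e.1, mem_filter.2 ⟨hW2 e.1 h1 (by rw [← h4]; exact h2), h1⟩, ?_⟩
        rw [mem_product, mem_product, mem_product]
        exact ⟨mem_singleton.2 rfl, mem_singleton.2 h4, h3, mem_univ _⟩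
      refine (card_le_card hsub).trans ((card_biUnion_le_card_mul _ _ (4 * K) ?_).trans ?_)
      · intro t ht
        exact hbox t l (mem_filter.1 ht).2 y
      · calc (W.filter (fun t => S.adj s t)).card * (4 * K) ≤ K * (4 * K) :=
              Nat.mul_le_mul_right _ ((card_filter_le _ _).trans hW1)
          _ = 4 * K * K := by ring
  · -- coordinate 1
    have hsub : (S.fam s i l 1).filter (fun e => S.lab s e 1 = y) ⊆
        (S.cls s i).biUnion (fun z => (univ.filter (fun t => S.adj s t ∧ S.Q t z = y)).biUnion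
          (fun t => ({t} : Finset α) ×ˢ (({z} : Finset α) ×ˢ (S.blk s t l ×ˢ
            ((univ : Finset Bool) ×ˢ (univ : Finset Bool)))))) := by
      intro e he
      rw [mem_filter, mem_fam] at he
      obtain ⟨⟨h1, h2, h3, hc⟩, hey⟩ := he
      simp only [cond, Fin.isValue, true_and, one_ne_zero, false_and, Fin.reduceEq,
          or_false, false_or] at hc
      have h4 : S.Q e.1 e.2.1 = y := by
        have h5 : S.Q (if e.2.2.2.1 then e.1 else s) e.2.1 = y := hey
        rw [hc.2] at h5
        simpa using h5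
      rw [mem_biUnion]
      refine ⟨e.2.1, hc.1, ?_⟩
      rw [mem_biUnion]
      refine ⟨e.1, mem_filter.2 ⟨mem_univ _, h1, h4⟩, ?_⟩
      rw [mem_product, mem_product, mem_product]
      exact ⟨mem_singleton.2 rfl, mem_singleton.2 rfl, h3, mem_univ _⟩
    refine (card_le_card hsub).trans ((card_biUnion_le_card_mul _ _ (4 * K) ?_).trans ?_)
    · intro z _
      refine (card_biUnion_le_card_mul _ _ (4 * K) ?_).trans ?_
      · intro t ht
        exact hbox t l (mem_filter.1 ht).2.1 z
      · have h1 : (univ.filter (fun t => S.adj s t ∧ S.Q t z = y)).card ≤ 1 := by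
          rw [card_le_one]
          intro t ht t' ht'
          exact S.inj_col z ((mem_filter.1 ht).2.2.trans (mem_filter.1 ht').2.2.symm)
        calc _ ≤ 1 * (4 * K) := Nat.mul_le_mul_right _ h1
          _ = 4 * K := one_mul _
    · calc (S.cls s i).card * (4 * K) ≤ K * (4 * K) := Nat.mul_le_mul_right _ (hcls i)
        _ = 4 * K * K := by ring
  · -- coordinate 2
    by_cases hy : y ∈ S.cls s l
    · have : (S.fam s i l 2).filter (fun e => S.lab s e 2 = y) = ∅ := by
        rw [filter_eq_empty_iff]
        intro e he hey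
        rw [mem_fam] at he
        obtain ⟨_, _, _, hc⟩ := he
        simp only [cond, Fin.isValue, true_and, false_and, Fin.reduceEq,
          or_false, false_or] at hc
        apply hc
        have h1 : e.2.2.1 = y := hey
        rw [h1]; exact hy
      rw [this]; simp
    · obtain ⟨W, hW1, hW2⟩ := S.spread s l y hy
      have hsub : (S.fam s i l 2).filter (fun e => S.lab s e 2 = y) ⊆
          (W.filter (fun t => S.adj s t)).biUnion (fun t => ({t} : Finset α) ×ˢ (S.blk s t i
            ×ˢ (({y} : Finset α) ×ˢ ((univ : Finset Bool) ×ˢ (univ : Finset Bool))))) := by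
        intro e he
        rw [mem_filter, mem_fam] at he
        obtain ⟨⟨h1, h2, h3, _⟩, hey⟩ := he
        have h4 : e.2.2.1 = y := hey
        rw [mem_biUnion]
        refine ⟨e.1, mem_filter.2 ⟨hW2 e.1 h1 (by rw [← h4]; exact h3), h1⟩, ?_⟩
        rw [mem_product, mem_product, mem_product]
        exact ⟨mem_singleton.2 rfl, h2, mem_singleton.2 h4, mem_univ _⟩
      refine (card_le_card hsub).trans ((card_biUnion_le_card_mul _ _ (4 * K) ?_).trans ?_)
      · intro t ht
        exact hbox' t i (mem_filter.1 ht).2 y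
      · calc (W.filter (fun t => S.adj s t)).card * (4 * K) ≤ K * (4 * K) :=
              Nat.mul_le_mul_right _ ((card_filter_le _ _).trans hW1)
          _ = 4 * K * K := by ring
  · -- coordinate 3
    have hsub : (S.fam s i l 3).filter (fun e => S.lab s e 3 = y) ⊆
        (S.cls s l).biUnion (fun z => (univ.filter (fun t => S.adj s t ∧ S.Q t z = y)).biUnion
          (fun t => ({t} : Finset α) ×ˢ (S.blk s t i ×ˢ (({z} : Finset α) ×ˢ
            ((univ : Finset Bool) ×ˢ (univ : Finset Bool)))))) := by
      intro e he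
      rw [mem_filter, mem_fam] at he
      obtain ⟨⟨h1, h2, h3, hc⟩, hey⟩ := he
      simp only [cond, Fin.isValue, true_and, false_and, Fin.reduceEq,
          false_or] at hc
      have h4 : S.Q e.1 e.2.2.1 = y := by
        have h5 : S.Q (if e.2.2.2.2 then e.1 else s) e.2.2.1 = y := hey
        rw [hc.2] at h5
        simpa using h5
      rw [mem_biUnion]
      refine ⟨e.2.2.1, hc.1, ?_⟩
      rw [mem_biUnion]
      refine ⟨e.1, mem_filter.2 ⟨mem_univ _, h1, h4⟩, ?_⟩
      rw [mem_product, mem_product, mem_product]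
      exact ⟨mem_singleton.2 rfl, h2, mem_singleton.2 rfl, mem_univ _⟩
    refine (card_le_card hsub).trans ((card_biUnion_le_card_mul _ _ (4 * K) ?_).trans ?_)
    · intro z _
      refine (card_biUnion_le_card_mul _ _ (4 * K) ?_).trans ?_
      · intro t ht
        exact hbox' t i (mem_filter.1 ht).2.1 z
      · have h1 : (univ.filter (fun t => S.adj s t ∧ S.Q t z = y)).card ≤ 1 := by
          rw [card_le_one]
          intro t ht t' ht'
          exact S.inj_col z ((mem_filter.1 ht).2.2.trans (mem_filter.1 ht').2.2.symm)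
        calc _ ≤ 1 * (4 * K) := Nat.mul_le_mul_right _ h1
          _ = 4 * K := one_mul _
    · calc (S.cls s l).card * (4 * K) ≤ K * (4 * K) := Nat.mul_le_mul_right _ (hcls l)
        _ = 4 * K * K := by ring

open Classical in
theorem bad_bound (E : (Fin 4 → α) → Prop) (m0 : ℕ)
    (h : ∀ s i l q, ((S.fam s i l q).filter (fun e => E (S.lab s e))).card ≤ m0) (s i l : α) :
    ∃ W : Finset α, W.card ≤ 4 * m0 ∧ ∀ t, S.adj s t → S.Bad E s i l t → t ∈ W := by
  refine ⟨(univ : Finset (Fin 4)).biUnion (fun q =>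
    ((S.fam s i l q).filter (fun e => E (S.lab s e))).image Prod.fst), ?_, ?_⟩
  · refine (card_biUnion_le_card_mul _ _ m0 ?_).trans ?_
    · intro q _
      exact card_image_le.trans (h s i l q)
    · simp
  · rintro t hadj ⟨i', hi', l', hl', a, b, ha, hb, hnot, hE⟩
    rw [mem_biUnion]
    -- labels
    set e : α × α × α × Bool × Bool := (t, i', l', decide (a = t), decide (b = t)) with he
    have hlab : S.lab s e = S.pt a b i' l' := by
      unfold lab
      have h1 : (if e.2.2.2.1 then e.1 else s) = a := by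
        simp only [he]
        by_cases hat : a = t
        · simp [hat]
        · simp [hat]
          exact (ha.resolve_right hat).symm
      have h2 : (if e.2.2.2.2 then e.1 else s) = b := by
        simp only [he]
        by_cases hbt : b = t
        · simp [hbt]
        · simp [hbt]
          exact (hb.resolve_right hbt).symm
      rw [h1, h2]
    have hq : ∃ q, S.cond s i l q e := by
      by_cases h1 : i' ∈ S.cls s i
      · by_cases h2 : l' ∈ S.cls s l
        · by_cases h3 : a = s
          · by_cases h4 : b = s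
            · exact absurd ⟨h1, h2, h3, h4⟩ hnot
            · refine ⟨3, Or.inr (Or.inr (Or.inr ⟨rfl, h2, ?_⟩))⟩
              simp [he, hb.resolve_left h4]
          · refine ⟨1, Or.inr (Or.inl ⟨rfl, h1, ?_⟩)⟩
            simp [he, ha.resolve_left h3]
        · exact ⟨2, Or.inr (Or.inr (Or.inl ⟨rfl, h2⟩))⟩
      · exact ⟨0, Or.inl ⟨rfl, h1⟩⟩
    obtain ⟨q, hq⟩ := hq
    refine ⟨q, mem_univ _, ?_⟩
    rw [mem_image]
    refine ⟨e, ?_, rfl⟩
    rw [mem_filter, mem_fam]
    exact ⟨⟨hadj, hi', hl', hq⟩, by rw [hlab]; exact hE⟩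

end SpreadSys

open Classical in
/-- A Latin cube avoiding a sparse set exists as soon as there is a spread system. -/
theorem avoid {α : Type} [Fintype α] {K d : ℕ} (S : SpreadSys α K d)
    (hK : 2 ≤ K) (hd : Fintype.card α ≤ 6 * d) (E : (Fin 4 → α) → Prop) (k : ℕ) (hk : 1 ≤ k)
    (hE : ∀ (x : Fin 4 → α) (q : Fin 4),
      (univ.filter (fun z => E (Function.update x q z))).card ≤ k)
    (hbig : k * (2 * (4 * K * K) * 192 ^ (2 * ((200 * K * K) * (4 * K * K))) *
      ((200 * K * K) * (4 * K * K))) ≤ Fintype.card α) :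
    ∃ L : α → α → α → α,
      (∀ j l, Function.Injective (fun i => L i j l)) ∧
      (∀ i l, Function.Injective (fun j => L i j l)) ∧
      (∀ i j, Function.Injective (fun l => L i j l)) ∧
      ∀ i j l, ¬ E ![i, j, l, L i j l] := by
  set n := Fintype.card α with hn
  set μ := 4 * K * K with hμ
  set c0 := 200 * K * K with hc0
  have hKK : 4 ≤ K * K := by nlinarith
  have hμ0 : 0 < μ := by rw [hμ, mul_assoc]; omega
  have hc00 : 0 < c0 := by rw [hc0, mul_assoc]; omega
  obtain ⟨hnum, hcn⟩ := num_ineq (c0 * μ) μ (Nat.mul_pos hc00 hμ0) hμ0 n k hk hbig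
  set m0 := n / c0 with hm0
  have hr : n / (c0 * μ) = m0 / μ := by rw [hm0, Nat.div_div_eq_div_mul]
  rw [hr] at hnum
  have hm0n : m0 ≤ n := Nat.div_le_self _ _
  have hrn : m0 / μ ≤ n := (Nat.div_le_self _ _).trans hm0n
  have hm01 : 1 ≤ m0 := by
    rw [hm0, Nat.one_le_div_iff hc00]
    exact le_trans (Nat.le_mul_of_pos_right c0 hμ0) hcn
  obtain ⟨σ, hσ⟩ := exists_iso (J := α × α × α × Fin 4) E k hE
    (fun j => S.fam j.1 j.2.1 j.2.2.1 j.2.2.2) (fun j => S.lab j.1) (fun j => j.2.2.2) μ
    (fun j y => S.fam_mult j.1 j.2.1 j.2.2.1 j.2.2.2 y) (m0 / μ) m0 (Nat.mul_div_le m0 μ) hrn (by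
      rw [Fintype.card_prod, Fintype.card_prod, Fintype.card_prod, Fintype.card_fin, ← hn]
      have : n * (n * (n * 4)) = 4 * n ^ 3 := by ring
      rw [this]
      exact hnum)
  set E' : (Fin 4 → α) → Prop := fun x => E (fun i => σ i (x i)) with hE'
  have hbad := S.bad_bound E' m0 (fun s i l q => hσ (s, i, l, q))
  have hkey : 6 * (4 * m0 + 32 * (K * K) * m0) ≤ 6 * d := by
    refine le_trans ?_ hd
    have h1 : m0 * c0 ≤ n := Nat.div_mul_le_self n c0
    refine le_trans ?_ h1
    rw [hc0]
    nlinarith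
  have hdm : 4 * (2 * K * K * (4 * m0)) ≤ d - 4 * m0 := by
    have h1 : 4 * (2 * K * K * (4 * m0)) = 32 * (K * K) * m0 := by ring
    rw [h1]
    omega
  have hpos : 0 < d - 4 * m0 := by
    refine lt_of_lt_of_le ?_ hdm
    have : 0 < K := by omega
    positivity
  obtain ⟨L, h1, h2, h3, h4⟩ := S.det E' (4 * m0) hbad hpos hdm
  refine ⟨fun i j l => σ 3 (L ((σ 0).symm i) ((σ 1).symm j) ((σ 2).symm l)), ?_, ?_, ?_, ?_⟩
  · intro j l i i' h
    have := h1 _ _ ((σ 3).injective h)
    exact (σ 0).symm.injective this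
  · intro i l j j' h
    have := h2 _ _ ((σ 3).injective h)
    exact (σ 1).symm.injective this
  · intro i j l l' h
    have := h3 _ _ ((σ 3).injective h)
    exact (σ 2).symm.injective this
  · intro i j l h
    apply h4 ((σ 0).symm i) ((σ 1).symm j) ((σ 2).symm l)
    change E (fun q => σ q (![(σ 0).symm i, (σ 1).symm j, (σ 2).symm l,
      L ((σ 0).symm i) ((σ 1).symm j) ((σ 2).symm l)] q))
    convert h using 1
    funext q
    fin_cases q <;> simp

end H104LHC
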