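import Pool.Agent.H104_LHC.Transv

/-!
# Spread systems and the deterministic switching theorem
-/

set_option autoImplicit false

namespace H104LHC

open Finset

/-- A Latin square `Q` (rows, columns and symbols indexed by `α`) together with a graph on its rows;
for adjacent rows `s`, `t` the columns are partitioned into blocks of size at most `K` on which the
two rows use the same symbols.  Columns which lie together in a block for every neighbour of `s` may
form classes; any two columns not in the same class are in the same block for at most `K`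
neighbours. -/
structure SpreadSys (α : Type) (K d : ℕ) where
  Q : α → α → α
  inj_row : ∀ s, Function.Injective (Q s)
  inj_col : ∀ i, Function.Injective (fun s => Q s i)
  adj : α → α → Prop
  adj_symm : ∀ {s t}, adj s t → adj t s
  adj_ne : ∀ {s t}, adj s t → s ≠ t
  blk : α → α → α → Finset α
  blk_self : ∀ {s t} i, adj s t → i ∈ blk s t i
  blk_eq : ∀ {s t i j}, adj s t → j ∈ blk s t i → blk s t j = blk s t i
  blk_symm : ∀ {s t} i, adj s t → blk s t i = blk t s i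
  blk_img : ∀ {s t} i, adj s t → ∀ j ∈ blk s t i, ∃ j' ∈ blk s t i, Q s j' = Q t j
  blk_card : ∀ {s t} i, adj s t → (blk s t i).card ≤ K
  cls : α → α → Finset α
  cls_self : ∀ s i, i ∈ cls s i
  cls_eq : ∀ {s i j}, j ∈ cls s i → cls s j = cls s i
  cls_sub : ∀ {s t} i, adj s t → cls s i ⊆ blk s t i
  spread : ∀ s i i', i' ∉ cls s i → ∃ W : Finset α, W.card ≤ K ∧
    ∀ t, adj s t → i' ∈ blk s t i → t ∈ W
  deg : ∀ s, ∃ W : Finset α, d ≤ W.card ∧ ∀ t ∈ W, adj s t

namespace SpreadSys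

variable {α : Type} {K d : ℕ} (S : SpreadSys α K d) (E : (Fin 4 → α) → Prop)

/-- the points of the code and of its switches -/
def pt (a b i l : α) : Fin 4 → α := ![i, S.Q a i, l, S.Q b l]

/-- the neighbour `t` is bad for the cell `(s, i, l)` -/
def Bad (s i l t : α) : Prop :=
  ∃ i' ∈ S.blk s t i, ∃ l' ∈ S.blk s t l, ∃ a b, (a = s ∨ a = t) ∧ (b = s ∨ b = t) ∧
    ¬ (i' ∈ S.cls s i ∧ l' ∈ S.cls s l ∧ a = s ∧ b = s) ∧ E (S.pt a b i' l')

variable [DecidableEq α]

/-- cells of a trade -/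
def tr (s t i l : α) : Finset (α × α × α) := {s, t} ×ˢ (S.blk s t i ×ˢ S.blk s t l)

/-- super-cell -/
def sp (s i l : α) : Finset (α × α × α) := {s} ×ˢ (S.cls s i ×ˢ S.cls s l)

theorem mem_tr {s t i l u i' l' : α} : (u, i', l') ∈ S.tr s t i l ↔
    (u = s ∨ u = t) ∧ i' ∈ S.blk s t i ∧ l' ∈ S.blk s t l := by
  unfold tr
  rw [mem_product, mem_product, mem_insert, mem_singleton]

theorem mem_sp {s i l u i' l' : α} : (u, i', l') ∈ S.sp s i l ↔
    u = s ∧ i' ∈ S.cls s i ∧ l' ∈ S.cls s l := by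
  unfold sp
  rw [mem_product, mem_product, mem_singleton]

variable {S}

theorem tr_symm {s t : α} (h : S.adj s t) (i l : α) : S.tr s t i l = S.tr t s i l := by
  unfold tr
  rw [S.blk_symm i h, S.blk_symm l h, pair_comm]

theorem tr_eq {s t i l i' l' : α} (h : S.adj s t) (hi : i' ∈ S.blk s t i)
    (hl : l' ∈ S.blk s t l) : S.tr s t i' l' = S.tr s t i l := by
  unfold tr
  rw [S.blk_eq h hi, S.blk_eq h hl]

theorem sp_eq {s i l i' l' : α} (hi : i' ∈ S.cls s i) (hl : l' ∈ S.cls s l) :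
    S.sp s i' l' = S.sp s i l := by
  unfold sp
  rw [S.cls_eq hi, S.cls_eq hl]

theorem self_mem_tr {s t : α} (h : S.adj s t) (i l : α) : (s, i, l) ∈ S.tr s t i l :=
  S.mem_tr.2 ⟨Or.inl rfl, S.blk_self i h, S.blk_self l h⟩

theorem tr_closed {s t i l u i0 l0 i1 l1 : α} (h : S.adj s t) (h0 : (u, i0, l0) ∈ S.tr s t i l)
    (hi : i1 ∈ S.cls u i0) (hl : l1 ∈ S.cls u l0) : (u, i1, l1) ∈ S.tr s t i l := by
  rw [mem_tr] at h0 ⊢
  obtain ⟨hu, hi0, hl0⟩ := h0
  refine ⟨hu, ?_, ?_⟩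
  · rw [← S.blk_eq h hi0]
    rcases hu with rfl | rfl
    · exact S.cls_sub i0 h hi
    · rw [S.blk_symm i0 h]
      exact S.cls_sub i0 (S.adj_symm h) hi
  · rw [← S.blk_eq h hl0]
    rcases hu with rfl | rfl
    · exact S.cls_sub l0 h hl
    · rw [S.blk_symm l0 h]
      exact S.cls_sub l0 (S.adj_symm h) hl

variable (S)

/-- `T` is a good trade for the super-cell `P` -/
def Opt (P T : Finset (α × α × α)) : Prop :=
  ∃ s i l t, P = S.sp s i l ∧ S.adj s t ∧ T = S.tr s t i l ∧ ¬ S.Bad E s i l t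

/-- `P` is a conflict super-cell -/
def Conf (P : Finset (α × α × α)) : Prop :=
  ∃ s i l, P = S.sp s i l ∧ E (S.pt s s i l)

variable {S} {E}

theorem L0 {P T : Finset (α × α × α)} (h : S.Opt E P T) {u i1 l1 : α} (hT : (u, i1, l1) ∈ T)
    (hE : E (S.pt u u i1 l1)) : S.sp u i1 l1 = P := by
  obtain ⟨s, i, l, t, rfl, hadj, rfl, hbad⟩ := h
  rw [mem_tr] at hT
  by_cases hc : i1 ∈ S.cls s i ∧ l1 ∈ S.cls s l ∧ u = s
  · obtain ⟨h1, h2, rfl⟩ := hc
    exact sp_eq h1 h2
  · exfalso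
    apply hbad
    refine ⟨i1, hT.2.1, l1, hT.2.2, u, u, hT.1, hT.1, ?_, hE⟩
    rintro ⟨h1, h2, h3, _⟩
    exact hc ⟨h1, h2, h3⟩

theorem Opt_sub {P T : Finset (α × α × α)} (h : S.Opt E P T) : P ⊆ T := by
  obtain ⟨s, i, l, t, rfl, hadj, rfl, hbad⟩ := h
  rintro ⟨u, i', l'⟩ hu
  rw [mem_sp] at hu
  obtain ⟨rfl, h1, h2⟩ := hu
  exact tr_closed hadj (self_mem_tr hadj i l) h1 h2

theorem self_mem_sp (s i l : α) : (s, i, l) ∈ S.sp s i l :=
  S.mem_sp.2 ⟨rfl, S.cls_self s i, S.cls_self s l⟩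

theorem L1 {P P' T : Finset (α × α × α)} (h : S.Opt E P T) (h' : S.Opt E P' T)
    (hc : S.Conf E P') : P = P' := by
  obtain ⟨u, i1, l1, rfl, hE⟩ := hc
  exact (L0 h (Opt_sub h' (self_mem_sp u i1 l1)) hE).symm

theorem L2 {P P' T T' : Finset (α × α × α)} (h : S.Opt E P T) (h' : S.Opt E P' T')
    (hc : S.Conf E P') (hne : P ≠ P') {u i0 l0 : α} (hT : (u, i0, l0) ∈ T)
    (hT' : (u, i0, l0) ∈ T') :
    ∃ u', S.adj u u' ∧ S.Bad E u i0 l0 u' ∧ T' = S.tr u u' i0 l0 := by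
  obtain ⟨v, i1, l1, hP, hE⟩ := hc
  obtain ⟨s', i', l', t', hP', hadj, rfl, hbad⟩ := h'
  have h1 : (v, i1, l1) ∈ S.sp s' i' l' := by rw [← hP', hP]; exact self_mem_sp v i1 l1
  rw [mem_sp] at h1
  obtain ⟨rfl, hi1, hl1⟩ := h1
  have hT2 := hT'
  rw [mem_tr] at hT2
  obtain ⟨hu, hi0, hl0⟩ := hT2
  have hbi := S.blk_eq hadj hi0
  have hbl := S.blk_eq hadj hl0
  have hi2 : i1 ∈ S.blk v t' i0 := by
    rw [hbi]; exact S.cls_sub i' hadj hi1
  have hl2 : l1 ∈ S.blk v t' l0 := by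
    rw [hbl]; exact S.cls_sub l' hadj hl1
  rcases hu with rfl | rfl
  · refine ⟨t', hadj, ?_, (tr_eq hadj hi0 hl0).symm⟩
    refine ⟨i1, hi2, l1, hl2, u, u, Or.inl rfl, Or.inl rfl, ?_, hE⟩
    rintro ⟨g1, g2, _, _⟩
    apply hne
    have hh := h
    obtain ⟨s, i, l, t, hPs, hadjs, hTs, _⟩ := hh
    rw [hTs] at hT
    have h3 := tr_closed hadjs hT g1 g2
    rw [← hTs] at h3
    rw [← L0 h h3 hE, hP]
  · refine ⟨v, S.adj_symm hadj, ?_, ?_⟩
    · refine ⟨i1, ?_, l1, ?_, v, v, Or.inr rfl, Or.inr rfl, ?_, hE⟩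
      · rw [← S.blk_symm i0 hadj]; exact hi2
      · rw [← S.blk_symm l0 hadj]; exact hl2
      · rintro ⟨_, _, g3, _⟩
        exact S.adj_ne hadj g3
    · rw [← tr_symm hadj]
      exact (tr_eq hadj hi0 hl0).symm

/-- the trades selected -/
theorem exists_trades [Fintype α] (m : ℕ) (hm : ∀ s i l, ∃ W : Finset α, W.card ≤ m ∧
      ∀ t, S.adj s t → S.Bad E s i l t → t ∈ W)
    (hq : 0 < d - m) (h4 : 4 * (2 * K * K * m) ≤ d - m) :
    ∃ F : Finset (α × α × α) → Prop,
      (∀ T, F T → ∃ P, S.Opt E P T) ∧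
      (∀ T T', F T → F T' → (∃ c, c ∈ T ∧ c ∈ T') → T = T') ∧
      (∀ s i l, E (S.pt s s i l) → ∃ T, F T ∧ S.Opt E (S.sp s i l) T) := by
  classical
  let ι := {P : Finset (α × α × α) // S.Conf E P}
  let A : ι → Finset (Finset (α × α × α)) := fun P => univ.filter (fun T => S.Opt E P.1 T)
  let R : Finset (α × α × α) → Finset (α × α × α) → Prop := fun T T' => ∃ c, c ∈ T ∧ c ∈ T'
  choose Wb hWb1 hWb2 using hm
  have hA : ∀ P : ι, d - m ≤ (A P).card := by
    rintro ⟨P, s, i, l, rfl, hE⟩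
    obtain ⟨W, hW1, hW2⟩ := S.deg s
    have h1 : (W \ Wb s i l).card ≤ (A ⟨S.sp s i l, s, i, l, rfl, hE⟩).card := by
      refine card_le_card_of_injOn (fun t => S.tr s t i l) ?_ ?_
      · intro t ht
        rw [mem_coe, mem_sdiff] at ht
        rw [mem_coe, mem_filter]
        refine ⟨mem_univ _, s, i, l, t, rfl, hW2 t ht.1, rfl, ?_⟩
        intro hb
        exact ht.2 (hWb2 s i l t (hW2 t ht.1) hb)
      · intro t ht t' ht' htt
        rw [mem_coe, mem_sdiff] at ht ht'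
        have h2 : (t, i, l) ∈ S.tr s t i l :=
          S.mem_tr.2 ⟨Or.inr rfl, S.blk_self i (hW2 t ht.1), S.blk_self l (hW2 t ht.1)⟩
        have h3 : (t, i, l) ∈ S.tr s t' i l := by
          have : S.tr s t i l = S.tr s t' i l := htt
          rw [← this]; exact h2
        rw [mem_tr] at h3
        rcases h3.1 with h | h
        · exact absurd h.symm (S.adj_ne (hW2 t ht.1))
        · exact h
    have h2 : W.card - (Wb s i l).card ≤ (W \ Wb s i l).card := le_card_sdiff _ _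
    have h3 := hWb1 s i l
    omega
  obtain ⟨f, hf1, hf2⟩ := exists_indep_transversal A R
    (by rintro x y ⟨c, h1, h2⟩; exact ⟨c, h2, h1⟩) (d - m) (2 * K * K * m) hq hA (by
      intro P T hT Z hPZ W hW1 hW2
      have hTopt : S.Opt E P.1 T := (mem_filter.1 hT).2
      have hdisj : ∀ j ∈ Z, ∀ j' ∈ Z, j ≠ j' → Disjoint (W j) (W j') := by
        intro j hj j' hj' hjj
        rw [disjoint_left]
        intro T' h1 h2
        apply hjj
        have g1 : S.Opt E j.1 T' := (mem_filter.1 (hW1 j hj h1)).2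
        have g2 : S.Opt E j'.1 T' := (mem_filter.1 (hW1 j' hj' h2)).2
        exact Subtype.ext (L1 g1 g2 j'.2)
      rw [← card_biUnion hdisj]
      have hsub : Z.biUnion W ⊆ T.biUnion (fun c => (Wb c.1 c.2.1 c.2.2).image
          (fun u' => S.tr c.1 u' c.2.1 c.2.2)) := by
        intro T' hT'
        rw [mem_biUnion] at hT'
        obtain ⟨P', hP', hT'⟩ := hT'
        obtain ⟨c, hc1, hc2⟩ := hW2 P' hP' T' hT'
        obtain ⟨u, i0, l0⟩ := c
        have g1 : S.Opt E P'.1 T' := (mem_filter.1 (hW1 P' hP' hT')).2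
        have hne : P.1 ≠ P'.1 := by
          intro h
          apply hPZ
          have : P = P' := Subtype.ext h
          rw [this]; exact hP'
        obtain ⟨u', g2, g3, g4⟩ := L2 hTopt g1 P'.2 hne hc1 hc2
        rw [mem_biUnion]
        refine ⟨(u, i0, l0), hc1, ?_⟩
        rw [mem_image]
        exact ⟨u', hWb2 u i0 l0 u' g2 g3, g4.symm⟩
      refine (card_le_card hsub).trans ?_
      refine (card_biUnion_le_card_mul _ _ m ?_).trans ?_
      · intro c _
        exact card_image_le.trans (hWb1 _ _ _)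
      · refine Nat.mul_le_mul_right m ?_
        obtain ⟨s, i, l, t, _, hadj, rfl, _⟩ := hTopt
        unfold tr
        rw [card_product, card_product]
        have h1 : ({s, t} : Finset α).card ≤ 2 := card_le_two
        have h2 := S.blk_card i hadj
        have h3 := S.blk_card l hadj
        calc _ ≤ 2 * (K * K) := Nat.mul_le_mul h1 (Nat.mul_le_mul h2 h3)
          _ = 2 * K * K := by ring) h4
  refine ⟨fun T => ∃ P, f P = T, ?_, ?_, ?_⟩
  · rintro T ⟨P, rfl⟩
    exact ⟨P.1, (mem_filter.1 (hf1 P)).2⟩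
  · rintro T T' ⟨P, rfl⟩ ⟨P', rfl⟩ hc
    by_cases hPP : P = P'
    · rw [hPP]
    · exact absurd hc (hf2 P P' hPP)
  · intro s i l hE
    refine ⟨f ⟨S.sp s i l, s, i, l, rfl, hE⟩, ⟨_, rfl⟩, ?_⟩
    exact (mem_filter.1 (hf1 ⟨S.sp s i l, s, i, l, rfl, hE⟩)).2

end SpreadSys

end H104LHC
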