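import Pool.Agent.H104_LHC.Prolong

/-!
# The base family: the group `ℤ₂ × Dih(ℤ_h)`, `h` odd, with translates of a complete mapping
-/

set_option autoImplicit false
set_option linter.unusedSimpArgs false

namespace H104LHC

open Finset

namespace Dih

/-- sign -/
def sg {h : ℕ} (b : Bool) (y : ZMod h) : ZMod h := bif b then -y else y

@[simp] theorem sg_true {h : ℕ} (y : ZMod h) : sg true y = -y := rfl
@[simp] theorem sg_false {h : ℕ} (y : ZMod h) : sg false y = y := rfl

/-- the underlying type -/
abbrev G (h : ℕ) : Type := Bool × Bool × ZMod h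

/-- left multiplication -/
def L {h : ℕ} (s : G h) : Equiv.Perm (G h) where
  toFun i := (xor s.1 i.1, xor s.2.1 i.2.1, s.2.2 + sg s.2.1 i.2.2)
  invFun i := (xor s.1 i.1, xor s.2.1 i.2.1, sg s.2.1 (i.2.2 - s.2.2))
  left_inv := by
    rintro ⟨b, d, y⟩
    obtain ⟨β, σ, t⟩ := s
    cases σ <;> simp
  right_inv := by
    rintro ⟨b, d, y⟩
    obtain ⟨β, σ, t⟩ := s
    cases σ <;> simp

/-- translates of the complete mapping -/
def Psi {h : ℕ} (u : ZMod h) : Equiv.Perm (G h) where
  toFun i := (i.2.1, xor i.1 i.2.1, sg (!i.1) i.2.2 + sg (xor i.1 i.2.1) (2 * u))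
  invFun i := (xor i.1 i.2.1, i.1, sg (!(xor i.1 i.2.1)) (i.2.2 - sg i.2.1 (2 * u)))
  left_inv := by
    rintro ⟨b, d, y⟩
    cases b <;> cases d <;> simp
  right_inv := by
    rintro ⟨b, d, y⟩
    cases b <;> cases d <;> simp

/-- positions of the extra symbols -/
def kk {h : ℕ} (half u : ZMod h) (s : G h) : G h :=
  (s.2.1, xor s.1 s.2.1, -sg s.2.1 (s.2.2 * half) + sg (xor s.1 s.2.1) u)

/-- the map `L⁻¹ Ψ` for `s = (0, 0, t)` -/
def F {h : ℕ} (u t : ZMod h) (i : G h) : G h :=
  (i.2.1, xor i.1 i.2.1, sg (!i.1) i.2.2 + sg (xor i.1 i.2.1) (2 * u) - t)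

theorem F_eq {h : ℕ} (u t : ZMod h) (i : G h) : ((L (false, false, t))⁻¹ * Psi u) i = F u t i := by
  rw [Equiv.Perm.mul_apply, Equiv.Perm.inv_eq_iff_eq]
  obtain ⟨b, d, y⟩ := i
  simp [F, L, Psi]

theorem F_iter {h : ℕ} (u t : ZMod h) (j : ℕ) (i : G h) :
    (((L (false, false, t))⁻¹ * Psi u) ^ j) i = (F u t)^[j] i := by
  induction j with
  | zero => rfl
  | succ j ih =>
    rw [pow_succ', Equiv.Perm.mul_apply, ih, F_eq, Function.iterate_succ_apply']

theorem F_six {h : ℕ} (u t : ZMod h) (i : G h) : (F u t)^[6] i = i := by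
  obtain ⟨b, d, y⟩ := i
  cases b <;> cases d <;> simp [F, Function.iterate_succ_apply'] <;> ring

theorem L_invol {h : ℕ} (s s' : G h) (hs : s.2.1 ≠ s'.2.1) : ((L s)⁻¹ * L s') ^ 2 = 1 := by
  have h1 : ∀ i, L s i = L s' (((L s)⁻¹ * L s') i) := by
    intro i
    obtain ⟨b, d, y⟩ := i
    obtain ⟨β, σ, t⟩ := s
    obtain ⟨β', σ', t'⟩ := s'
    rw [Equiv.Perm.mul_apply]
    change L (β, σ, t) (b, d, y) = L (β', σ', t') ((L (β, σ, t)).symm (L (β', σ', t') (b, d, y)))
    revert hs
    cases β <;> cases β' <;> cases σ <;> cases σ' <;> cases b <;> cases d <;> simp [L] <;> ring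
  ext1 i
  rw [pow_two, Equiv.Perm.mul_apply, Equiv.Perm.mul_apply, Equiv.Perm.inv_eq_iff_eq,
    Equiv.Perm.one_apply]
  exact (h1 i).symm

theorem L_inj {h : ℕ} {s s' : G h} {i : G h} (hh : L s i = L s' i) : s = s' := by
  obtain ⟨b, d, y⟩ := i
  obtain ⟨β, σ, t⟩ := s
  obtain ⟨β', σ', t'⟩ := s'
  simp only [L, Equiv.coe_fn_mk, Prod.mk.injEq] at hh
  obtain ⟨h1, h2, h3⟩ := hh
  have e1 : β = β' := by revert h1; cases β <;> cases β' <;> cases b <;> simp
  have e2 : σ = σ' := by revert h2; cases σ <;> cases σ' <;> cases d <;> simp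
  subst e1 e2
  simp only [add_left_inj] at h3
  rw [h3]

section

variable {h : ℕ} (half : ZMod h) (hh : 2 * half = 1)

include hh in
theorem two_inj {x y : ZMod h} (e : 2 * x = 2 * y) : x = y := by
  linear_combination half * e - (x - y) * hh

include hh in
theorem C3 (s i : G h) (u : ZMod h) : L s i = Psi u i ↔ i = kk half u s := by
  obtain ⟨b, d, y⟩ := i
  obtain ⟨β, σ, t⟩ := s
  simp only [L, Psi, kk, Equiv.coe_fn_mk, Prod.mk.injEq]
  constructor
  · rintro ⟨h1, h2, h3⟩
    have e1 : b = σ := by revert h1 h2; cases β <;> cases σ <;> cases b <;> cases d <;> simp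
    subst e1
    have e2 : d = xor β b := by revert h1 h2; cases β <;> cases b <;> cases d <;> simp
    subst e2
    refine ⟨rfl, rfl, ?_⟩
    apply two_inj half hh
    revert h3
    cases β <;> cases b <;> simp only [sg_true, sg_false, Bool.xor_false, Bool.xor_true,
      Bool.false_xor, Bool.true_xor, Bool.not_true, Bool.not_false, Bool.xor_self] <;> intro h3
    · linear_combination h3 + t * hh
    · linear_combination -h3 - t * hh
    · linear_combination h3 + t * hh
    · linear_combination -h3 - t * hh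
  · rintro ⟨rfl, rfl, rfl⟩
    refine ⟨?_, ?_, ?_⟩
    · cases β <;> cases b <;> rfl
    · cases β <;> cases b <;> rfl
    · cases β <;> cases b <;> simp only [sg_true, sg_false, Bool.xor_false, Bool.xor_true,
        Bool.false_xor, Bool.true_xor, Bool.not_true, Bool.not_false, Bool.xor_self]
      · linear_combination -t * hh
      · linear_combination -t * hh
      · linear_combination -t * hh
      · linear_combination -t * hh

include hh in
theorem kk_inj (u : ZMod h) : Function.Injective (kk half u) := by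
  rintro ⟨β, σ, t⟩ ⟨β', σ', t'⟩ e
  simp only [kk, Prod.mk.injEq] at e
  obtain ⟨h1, h2, h3⟩ := e
  subst h1
  have e1 : β = β' := by revert h2; cases β <;> cases β' <;> cases σ <;> simp
  subst e1
  have h4 : t = t' := by
    revert h3
    cases σ <;> simp only [sg_true, sg_false, Bool.xor_false, Bool.xor_true, neg_neg] <;> intro h3
    · linear_combination -2 * h3 - (t - t') * hh
    · linear_combination 2 * h3 - (t - t') * hh
  rw [h4]

theorem kk_inj_u (s : G h) {u u' : ZMod h} (e : kk half u s = kk half u' s) : u = u' := by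
  obtain ⟨β, σ, t⟩ := s
  simp only [kk, Prod.mk.injEq, true_and, add_right_inj] at e
  revert e
  cases (xor β σ) <;> simp

include hh in
theorem Psi_inj_u {i : G h} {u u' : ZMod h} (e : Psi u i = Psi u' i) : u = u' := by
  obtain ⟨b, d, y⟩ := i
  simp only [Psi, Equiv.coe_fn_mk, Prod.mk.injEq, true_and, add_right_inj] at e
  apply two_inj half hh
  revert e
  cases (xor b d) <;> simp

end

/-- classes for the extra rows -/
def cl {h : ℕ} (g : G h) : Finset (G h) :=
  if g.1 then {g, (g.1, !g.2.1, -g.2.2)} else {g}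

theorem cl_self {h : ℕ} (g : G h) : g ∈ cl g := by
  unfold cl
  split_ifs <;> simp

theorem cl_eq {h : ℕ} {g g' : G h} (hg : g' ∈ cl g) : cl g' = cl g := by
  obtain ⟨b, d, y⟩ := g
  cases b
  · simp only [cl, Bool.false_eq_true, if_false, mem_singleton] at hg
    rw [hg]
  · simp only [cl, if_true, mem_insert, mem_singleton] at hg
    rcases hg with rfl | rfl
    · rfl
    · simp only [cl, if_true, Bool.not_not, neg_neg]
      exact pair_comm _ _

theorem cl_same {h : ℕ} (u t : ZMod h) {g g' : G h} (hg : g' ∈ cl g) :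
    ((L (false, false, t))⁻¹ * Psi u).SameCycle g g' := by
  obtain ⟨b, d, y⟩ := g
  cases b
  · simp only [cl, Bool.false_eq_true, if_false, mem_singleton] at hg
    rw [hg]
  · simp only [cl, if_true, mem_insert, mem_singleton] at hg
    rcases hg with rfl | rfl
    · exact Equiv.Perm.SameCycle.refl _ _
    · cases d
      · refine ⟨(2 : ℕ), ?_⟩
        rw [zpow_natCast, F_iter]
        simp [F, Function.iterate_succ_apply']
        ring
      · refine ⟨(4 : ℕ), ?_⟩
        rw [zpow_natCast, F_iter]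
        simp [F, Function.iterate_succ_apply']
        ring

/-- two solutions of `F^j g = g'` differ by a 6-torsion element -/
theorem F_sol {h : ℕ} (u t t' : ZMod h) {g g' : G h} (hg : g' ∉ cl g) (j : ℕ) (hj : j < 6)
    (e : (F u t)^[j] g = g') (e' : (F u t')^[j] g = g') : (6 : ℕ) • (t - t') = 0 := by
  obtain ⟨b, d, y⟩ := g
  obtain ⟨b', d', y'⟩ := g'
  rw [nsmul_eq_mul]
  push_cast
  interval_cases j
  · exfalso
    apply hg
    simp only [Function.iterate_zero, id] at e
    rw [← e]
    exact cl_self _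
  all_goals
    revert hg
    cases b <;> cases d <;>
    simp only [F, Function.iterate_succ_apply', Function.iterate_zero, id, Prod.mk.injEq,
      sg_true, sg_false, Bool.xor_false, Bool.xor_true,
      Bool.false_xor, Bool.true_xor, Bool.not_true, Bool.not_false, Bool.xor_self, cl,
      Bool.false_eq_true, if_false, if_true, mem_insert, mem_singleton] at e e' ⊢ <;>
    intro hg <;>
    obtain ⟨h1, h2, h3⟩ := e <;>
    obtain ⟨h1', h2', h3'⟩ := e' <;>
    subst h1 h2
  all_goals
    first
    | linear_combination 6 * h3 - 6 * h3'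
    | linear_combination -6 * h3 + 6 * h3'
    | linear_combination 3 * h3 - 3 * h3'
    | linear_combination -3 * h3 + 3 * h3'
    | linear_combination 2 * h3 - 2 * h3'
    | linear_combination -2 * h3 + 2 * h3'
    | (exfalso; apply hg; first
        | (refine ⟨rfl, rfl, ?_⟩; linear_combination -h3)
        | (refine Or.inr ⟨rfl, rfl, ?_⟩; linear_combination -h3))

end Dih

end H104LHC
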