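import Pool.Agent.H104_LHC.Dih

/-!
# The base data for `ℤ₂ × Dih(ℤ_h)`
-/

set_option autoImplicit false

namespace H104LHC

open Finset

namespace Dih

theorem same_lt {G : Type} (f : Equiv.Perm G) (hf : f ^ 6 = 1) {g g' : G}
    (h : f.SameCycle g g') : ∃ j : ℕ, j < 6 ∧ (f ^ j) g = g' := by
  obtain ⟨z, hz⟩ := h
  have h6 : f ^ (6 : ℤ) = 1 := by exact_mod_cast hf
  have h1 := zpow_eq_zpow_emod (x := f) z h6
  rw [h1] at hz
  have h2 : 0 ≤ z % 6 := Int.emod_nonneg _ (by norm_num)
  have h3 : z % 6 < 6 := Int.emod_lt_of_pos _ (by norm_num)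
  refine ⟨(z % 6).toNat, by omega, ?_⟩
  rw [← hz, ← zpow_natCast, Int.toNat_of_nonneg h2]

theorem same_two {G : Type} (f : Equiv.Perm G) (hf : f ^ 2 = 1) {g g' : G}
    (h : f.SameCycle g g') : g' = g ∨ g' = f g := by
  have h6 : f ^ 6 = 1 := by
    calc f ^ 6 = (f ^ 2) ^ 3 := by rw [← pow_mul]
      _ = 1 := by rw [hf, one_pow]
  obtain ⟨j, hj, hjg⟩ := same_lt f h6 h
  have h2 : f ^ j = f ^ (j % 2) := by
    conv_lhs => rw [← Nat.div_add_mod j 2, pow_add, pow_mul, hf, one_pow, one_mul]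
  rw [h2] at hjg
  rcases Nat.mod_two_eq_zero_or_one j with h3 | h3
  · rw [h3] at hjg
    left; rw [← hjg]; rfl
  · rw [h3, pow_one] at hjg
    right; exact hjg.symm

open Classical in
theorem W1 {G A : Type} [Fintype G] (P : G → Prop) (hP : ∀ x y, P x → P y → x = y) :
    ∃ W : Finset (G ⊕ A), W.card ≤ 1 ∧ ∀ x, P x → Sum.inl x ∈ W := by
  refine ⟨(univ.filter P).image Sum.inl, ?_, ?_⟩
  · refine card_image_le.trans ?_
    rw [card_le_one]
    intro x hx y hy
    exact hP x y (mem_filter.1 hx).2 (mem_filter.1 hy).2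
  · intro x hx
    exact mem_image.2 ⟨x, mem_filter.2 ⟨mem_univ _, hx⟩, rfl⟩

section

variable {h a : ℕ}

/-- shifts -/
def uu (h a : ℕ) (q : Fin a) : ZMod h := ((q : ℕ) : ZMod h)

theorem uu_inj (ha : a ≤ h) : Function.Injective (uu h a) := by
  intro q q' e
  unfold uu at e
  rw [ZMod.natCast_eq_natCast_iff'] at e
  have h1 : (q : ℕ) < h := lt_of_lt_of_le q.2 ha
  have h2 : (q' : ℕ) < h := lt_of_lt_of_le q'.2 ha
  rw [Nat.mod_eq_of_lt h1, Nat.mod_eq_of_lt h2] at e
  exact Fin.ext e

/-- the permutations -/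
def rho (h a : ℕ) : G h ⊕ Fin a → Equiv.Perm (G h) :=
  Sum.elim (fun s => L s) (fun r => Psi (uu h a r))

/-- the small Latin square -/
def MM (a : ℕ) (r q : Fin a) : Fin a := ⟨((r : ℕ) + (q : ℕ)) % a, Nat.mod_lt _ r.pos⟩

theorem MM_row (r : Fin a) : Function.Injective (MM a r) := by
  intro q q' e
  have e' : ((r : ℕ) + (q : ℕ)) % a = ((r : ℕ) + (q' : ℕ)) % a := congrArg Fin.val e
  have h1 : (q : ℕ) ≡ (q' : ℕ) [MOD a] := Nat.ModEq.add_left_cancel' (r : ℕ) e'
  exact Fin.ext (Nat.ModEq.eq_of_lt_of_lt h1 q.2 q'.2)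

theorem MM_col (q : Fin a) : Function.Injective (fun r => MM a r q) := by
  intro r r' e
  have e' : ((r : ℕ) + (q : ℕ)) % a = ((r' : ℕ) + (q : ℕ)) % a := congrArg Fin.val e
  have h1 : (r : ℕ) ≡ (r' : ℕ) [MOD a] := Nat.ModEq.add_right_cancel' (q : ℕ) e'
  exact Fin.ext (Nat.ModEq.eq_of_lt_of_lt h1 r.2 r'.2)

/-- adjacency -/
def Adj (h a : ℕ) : G h ⊕ Fin a → G h ⊕ Fin a → Prop
  | Sum.inl s, Sum.inl s' => s.2.1 ≠ s'.2.1
  | Sum.inl s, Sum.inr _ => s.1 = false ∧ s.2.1 = false
  | Sum.inr _, Sum.inl s => s.1 = false ∧ s.2.1 = false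
  | Sum.inr _, Sum.inr _ => False

/-- classes -/
def clsG (h a : ℕ) : G h ⊕ Fin a → G h → Finset (G h)
  | Sum.inl _, g => {g}
  | Sum.inr _, g => cl g

theorem LP_six (u t : ZMod h) : ((L (false, false, t))⁻¹ * Psi u) ^ 6 = 1 := by
  ext1 i
  rw [F_iter, F_six]
  rfl

theorem six {s t : G h ⊕ Fin a} (hst : Adj h a s t) : ((rho h a s)⁻¹ * rho h a t) ^ 6 = 1 := by
  rcases s with s | r <;> rcases t with t | r'
  · have h1 := L_invol s t hst
    calc ((L s)⁻¹ * L t) ^ 6 = (((L s)⁻¹ * L t) ^ 2) ^ 3 := by rw [← pow_mul]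
      _ = 1 := by rw [h1, one_pow]
  · obtain ⟨β, σ, t⟩ := s
    obtain ⟨h1, h2⟩ := hst
    simp only at h1 h2
    subst h1 h2
    exact LP_six _ _
  · obtain ⟨β, σ, t⟩ := t
    obtain ⟨h1, h2⟩ := hst
    simp only at h1 h2
    subst h1 h2
    have h3 : (rho h a (Sum.inr r))⁻¹ * rho h a (Sum.inl (false, false, t)) =
        ((L (false, false, t))⁻¹ * Psi (uu h a r))⁻¹ := by
      rw [mul_inv_rev, inv_inv]; rfl
    rw [h3, inv_pow, LP_six, inv_one]
  · exact hst.elim

theorem clsG_sub {s t : G h ⊕ Fin a} (g : G h) (hst : Adj h a s t) :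
    ∀ g' ∈ clsG h a s g, ((rho h a s)⁻¹ * rho h a t).SameCycle g g' := by
  intro g' hg'
  rcases s with s | r
  · have h1 : g' = g := mem_singleton.1 hg'
    rw [h1]
  · rcases t with t | r'
    · obtain ⟨β, σ, t⟩ := t
      obtain ⟨h1, h2⟩ := hst
      simp only at h1 h2
      subst h1 h2
      have h3 : (rho h a (Sum.inr r))⁻¹ * rho h a (Sum.inl (false, false, t)) =
          ((L (false, false, t))⁻¹ * Psi (uu h a r))⁻¹ := by
        rw [mul_inv_rev, inv_inv]; rfl
      rw [h3, Equiv.Perm.sameCycle_inv]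
      exact cl_same _ _ hg'
    · exact hst.elim

theorem six_tors [NeZero h] (t0 : ZMod h) :
    (univ.filter (fun t : ZMod h => (6 : ℕ) • (t - t0) = 0)).card ≤ 6 := by
  have h1 := IsAddCyclic.card_nsmul_eq_zero_le (α := ZMod h) (n := 6) (by norm_num)
  refine le_trans ?_ h1
  refine card_le_card_of_injOn (fun t => t - t0) ?_ ?_
  · intro t ht
    rw [mem_coe, mem_filter] at ht ⊢
    exact ⟨mem_univ _, ht.2⟩
  · intro t _ t' _ e
    exact sub_left_injective e

open Classical in
theorem K1_inr [NeZero h] (r : Fin a) (g g' : G h) (hg : g' ∉ cl g) :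
    ∃ W : Finset (G h ⊕ Fin a), W.card ≤ 36 ∧
    ∀ t, Adj h a (Sum.inr r) t →
      ((rho h a (Sum.inr r))⁻¹ * rho h a t).SameCycle g g' → t ∈ W := by
  set u := uu h a r with hu
  set Wj : ℕ → Finset (G h ⊕ Fin a) := fun j =>
    if hex : ∃ t0, (F u t0)^[j] g = g' then
      (univ.filter (fun t : ZMod h => (6 : ℕ) • (t - hex.choose) = 0)).image
        (fun t => Sum.inl (false, false, t)) else ∅ with hWj
  refine ⟨(range 6).biUnion Wj, ?_, ?_⟩
  · refine (card_biUnion_le_card_mul _ _ 6 ?_).trans (by simp)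
    intro j _
    simp only [hWj]
    split_ifs with hex
    · exact card_image_le.trans (six_tors _)
    · simp
  · rintro (t | r') hadj hsame
    · obtain ⟨β, σ, t⟩ := t
      obtain ⟨h1, h2⟩ := hadj
      simp only at h1 h2
      subst h1 h2
      have h3 : (rho h a (Sum.inr r))⁻¹ * rho h a (Sum.inl (false, false, t)) =
          ((L (false, false, t))⁻¹ * Psi u)⁻¹ := by
        rw [mul_inv_rev, inv_inv]; rfl
      rw [h3, Equiv.Perm.sameCycle_inv] at hsame
      obtain ⟨j, hj, hjg⟩ := same_lt _ (LP_six u t) hsame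
      rw [F_iter] at hjg
      have hex : ∃ t0, (F u t0)^[j] g = g' := ⟨t, hjg⟩
      rw [mem_biUnion]
      refine ⟨j, mem_range.2 hj, ?_⟩
      simp only [hWj, dif_pos hex]
      rw [mem_image]
      refine ⟨t, ?_, rfl⟩
      rw [mem_filter]
      exact ⟨mem_univ _, F_sol u t _ hg j hj hjg hex.choose_spec⟩
    · exact hadj.elim

open Classical in
theorem K1_inl [NeZero h] (s : G h) (g g' : G h) (hg : g' ≠ g) :
    ∃ W : Finset (G h ⊕ Fin a), W.card ≤ a + 1 ∧
    ∀ t, Adj h a (Sum.inl s) t →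
      ((rho h a (Sum.inl s))⁻¹ * rho h a t).SameCycle g g' → t ∈ W := by
  obtain ⟨W, hW1, hW2⟩ := W1 (A := Fin a) (fun x : G h => L x g = L s g') (by
    intro x y hx hy
    exact L_inj (hx.trans hy.symm))
  refine ⟨univ.image Sum.inr ∪ W, ?_, ?_⟩
  · refine (card_union_le _ _).trans ?_
    have h1 : ((univ : Finset (Fin a)).image (Sum.inr : Fin a → G h ⊕ Fin a)).card ≤ a := by
      refine card_image_le.trans ?_
      simp
    omega
  · rintro (t | r') hadj hsame
    · rw [mem_union]
      right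
      apply hW2
      rcases same_two _ (L_invol s t hadj) hsame with h1 | h1
      · exact absurd h1 hg
      · rw [h1, Equiv.Perm.mul_apply]; exact (Equiv.apply_symm_apply (L _) _).symm
    · rw [mem_union]
      left
      exact mem_image.2 ⟨r', mem_univ _, rfl⟩

theorem F_ff (u t z : ZMod h) (j : ℕ) : (F u t)^[j] (false, false, z) = (false, false, z) ∨
    (F u t)^[j] (false, false, z) = F u t (false, false, z) := by
  have h2 : F u t (F u t (false, false, z)) = (false, false, z) := by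
    simp [F]; ring
  induction j with
  | zero => left; rfl
  | succ j ih =>
    rw [Function.iterate_succ_apply']
    rcases ih with h1 | h1
    · right; rw [h1]
    · left; rw [h1, h2]

open Classical in
theorem K2_inr [NeZero h] (half : ZMod h) (hh : 2 * half = 1) (r : Fin a) (g : G h) :
    ∃ W : Finset (G h ⊕ Fin a), W.card ≤ 2 * a ∧
    ∀ t, Adj h a (Sum.inr r) t → (∃ s0 q, (Sum.inl s0 = (Sum.inr r : G h ⊕ Fin a) ∨
      Sum.inl s0 = t) ∧
      ((rho h a (Sum.inr r))⁻¹ * rho h a t).SameCycle (kk half (uu h a q) s0) g) → t ∈ W := by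
  have hW4 : ∀ q : Fin a, ∃ W : Finset (G h ⊕ Fin a), W.card ≤ 1 ∧
      ∀ x, kk half (uu h a q) x = g → Sum.inl x ∈ W := fun q =>
    W1 (fun x : G h => kk half (uu h a q) x = g)
      (fun x y hx hy => kk_inj half hh _ (hx.trans hy.symm))
  have hW5 : ∀ q : Fin a, ∃ W : Finset (G h ⊕ Fin a), W.card ≤ 1 ∧
      ∀ x, (x.1 = false ∧ x.2.1 = false ∧ F (uu h a r) x.2.2 (kk half (uu h a q) x) = g) →
        Sum.inl x ∈ W := fun q =>
    W1 (fun x : G h => x.1 = false ∧ x.2.1 = false ∧
      F (uu h a r) x.2.2 (kk half (uu h a q) x) = g) (by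
      rintro ⟨b, d, t⟩ ⟨b', d', t'⟩ ⟨h1, h2, h3⟩ ⟨h1', h2', h3'⟩
      simp only at h1 h2 h1' h2'
      subst h1 h2 h1' h2'
      have h4 := h3.trans h3'.symm
      simp only [F, kk, sg_false, Bool.xor_false, Bool.not_false, sg_true, Prod.mk.injEq,
        true_and] at h4
      have h5 : t = t' := by
        linear_combination -2 * h4 + (t - t') * hh
      rw [h5])
  choose W4 hW4a hW4b using hW4
  choose W5 hW5a hW5b using hW5
  refine ⟨univ.biUnion (fun q => W4 q ∪ W5 q), ?_, ?_⟩
  · refine (card_biUnion_le_card_mul _ _ 2 ?_).trans ?_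
    · intro q _
      have h1 := card_union_le (W4 q) (W5 q)
      have h2 := hW4a q
      have h3 := hW5a q
      omega
    · rw [card_univ, Fintype.card_fin]; omega
  · rintro (t | r') hadj ⟨s0, q, hs0, hsame⟩
    · have hs1 : s0 = t := by
        rcases hs0 with h1 | h1
        · exact absurd h1 (by simp)
        · exact Sum.inl_injective h1
      subst hs1
      obtain ⟨β, σ, t⟩ := s0
      obtain ⟨h1, h2⟩ := hadj
      simp only at h1 h2
      subst h1 h2
      have h3 : (rho h a (Sum.inr r))⁻¹ * rho h a (Sum.inl (false, false, t)) =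
          ((L (false, false, t))⁻¹ * Psi (uu h a r))⁻¹ := by
        rw [mul_inv_rev, inv_inv]; rfl
      rw [h3, Equiv.Perm.sameCycle_inv] at hsame
      obtain ⟨j, hj, hjg⟩ := same_lt _ (LP_six (uu h a r) t) hsame
      rw [F_iter] at hjg
      have h4 : kk half (uu h a q) (false, false, t) =
          (false, false, -(t * half) + uu h a q) := rfl
      rw [mem_biUnion]
      refine ⟨q, mem_univ _, ?_⟩
      rw [mem_union]
      rw [h4] at hjg
      rcases F_ff (uu h a r) t (-(t * half) + uu h a q) j with h5 | h5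
      · left
        apply hW4b
        rw [h4, ← hjg, h5]
      · right
        apply hW5b
        refine ⟨rfl, rfl, ?_⟩
        rw [h4, ← hjg, h5]
    · exact hadj.elim

open Classical in
theorem K2_inl [NeZero h] (half : ZMod h) (hh : 2 * half = 1) (s : G h) (g : G h)
    (hg : ∀ q : Fin a, g ≠ kk half (uu h a q) s) :
    ∃ W : Finset (G h ⊕ Fin a), W.card ≤ 4 * a ∧
    ∀ t, Adj h a (Sum.inl s) t → (∃ s0 q, (Sum.inl s0 = (Sum.inl s : G h ⊕ Fin a) ∨
      Sum.inl s0 = t) ∧
      ((rho h a (Sum.inl s))⁻¹ * rho h a t).SameCycle (kk half (uu h a q) s0) g) → t ∈ W := by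
  have hW1 : ∀ q : Fin a, ∃ W : Finset (G h ⊕ Fin a), W.card ≤ 1 ∧
      ∀ x, L x (kk half (uu h a q) s) = L s g → Sum.inl x ∈ W := fun q =>
    W1 (fun x : G h => L x (kk half (uu h a q) s) = L s g)
      (fun x y hx hy => L_inj (hx.trans hy.symm))
  have hW2 : ∀ q : Fin a, ∃ W : Finset (G h ⊕ Fin a), W.card ≤ 1 ∧
      ∀ x, kk half (uu h a q) x = g → Sum.inl x ∈ W := fun q =>
    W1 (fun x : G h => kk half (uu h a q) x = g)
      (fun x y hx hy => kk_inj half hh _ (hx.trans hy.symm))
  have hW3 : ∀ q : Fin a, ∃ W : Finset (G h ⊕ Fin a), W.card ≤ 1 ∧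
      ∀ x, L x (kk half (uu h a q) x) = L s g → Sum.inl x ∈ W := fun q =>
    W1 (fun x : G h => L x (kk half (uu h a q) x) = L s g) (by
      intro x y hx hy
      have h1 := hx.trans hy.symm
      rw [(C3 half hh x _ (uu h a q)).2 rfl, (C3 half hh y _ (uu h a q)).2 rfl] at h1
      exact kk_inj half hh _ ((Psi (uu h a q)).injective h1))
  choose W1' hW1a hW1b using hW1
  choose W2' hW2a hW2b using hW2
  choose W3' hW3a hW3b using hW3
  refine ⟨univ.image Sum.inr ∪ univ.biUnion (fun q => W1' q ∪ (W2' q ∪ W3' q)), ?_, ?_⟩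
  · have h0 : ((univ : Finset (Fin a)).image (Sum.inr : Fin a → G h ⊕ Fin a)).card ≤ a := by
      refine card_image_le.trans ?_
      simp
    have h1 : ((univ : Finset (Fin a)).biUnion (fun q => W1' q ∪ (W2' q ∪ W3' q))).card ≤
        a * 3 := by
      refine (card_biUnion_le_card_mul _ _ 3 ?_).trans ?_
      · intro q _
        have h1 := card_union_le (W1' q) (W2' q ∪ W3' q)
        have h1' := card_union_le (W2' q) (W3' q)
        have h2 := hW1a q
        have h3 := hW2a q
        have h4 := hW3a q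
        omega
      · rw [card_univ, Fintype.card_fin]
    have h2 := card_union_le ((univ : Finset (Fin a)).image (Sum.inr : Fin a → G h ⊕ Fin a))
      ((univ : Finset (Fin a)).biUnion (fun q => W1' q ∪ (W2' q ∪ W3' q)))
    omega
  · rintro (t | r') hadj ⟨s0, q, hs0, hsame⟩
    · rw [mem_union]
      right
      rw [mem_biUnion]
      refine ⟨q, mem_univ _, ?_⟩
      rw [mem_union, mem_union]
      have htwo := same_two _ (L_invol s t hadj) hsame
      rcases hs0 with h1 | h1
      · obtain rfl := Sum.inl_injective h1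
        rcases htwo with h2 | h2
        · exact absurd h2 (hg q)
        · left
          apply hW1b
          rw [h2, Equiv.Perm.mul_apply]; exact (Equiv.apply_symm_apply (L _) _).symm
      · obtain rfl := Sum.inl_injective h1
        rcases htwo with h2 | h2
        · right; left
          apply hW2b
          exact h2.symm
        · right; right
          apply hW3b
          rw [h2, Equiv.Perm.mul_apply]; exact (Equiv.apply_symm_apply (L _) _).symm
    · rw [mem_union]
      left
      exact mem_image.2 ⟨r', mem_univ _, rfl⟩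

theorem degree [NeZero h] (s : G h ⊕ Fin a) :
    ∃ W : Finset (G h ⊕ Fin a), h ≤ W.card ∧ ∀ t ∈ W, Adj h a s t := by
  classical
  have hc : ∀ b d : Bool, ((univ : Finset (ZMod h)).image
      (fun y => (Sum.inl (b, d, y) : G h ⊕ Fin a))).card = h := by
    intro b d
    rw [card_image_of_injective, card_univ, ZMod.card]
    intro y y' e
    have := Sum.inl_injective e
    simp only [Prod.mk.injEq, true_and] at this
    exact this
  rcases s with ⟨β, σ, t⟩ | r
  · refine ⟨_, (hc false (!σ)).ge, ?_⟩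
    intro t' ht'
    rw [mem_image] at ht'
    obtain ⟨y, _, rfl⟩ := ht'
    change σ ≠ !σ
    cases σ <;> simp
  · refine ⟨_, (hc false false).ge, ?_⟩
    intro t' ht'
    rw [mem_image] at ht'
    obtain ⟨y, _, rfl⟩ := ht'
    exact ⟨rfl, rfl⟩

/-- The base data. -/
def base [NeZero h] (half : ZMod h) (hh : 2 * half = 1) (ha : a ≤ h) :
    Base (G h) (Fin a) (36 + a) (4 * a) h where
  ρ := rho h a
  kk := fun s q => kk half (uu h a q) s
  M := MM a
  M_row := fun r => Finite.injective_iff_surjective.1 (MM_row r)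
  M_row_inj := MM_row
  M_col := MM_col
  C1 := fun s s' i e => L_inj e
  C2 := fun r r' i e => uu_inj ha (Psi_inj_u half hh e)
  C3 := fun s r i => C3 half hh s i (uu h a r)
  C5 := fun q => kk_inj half hh _
  C6 := fun s q q' e => uu_inj ha (kk_inj_u half s e)
  adj := Adj h a
  adj_symm := by
    rintro (s | r) (t | r') e
    · exact Ne.symm e
    · exact e
    · exact e
    · exact e
  adj_ne := by
    rintro (s | r) (t | r') e e'
    · exact e (by rw [Sum.inl_injective e'])
    · exact absurd e' (by simp)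
    · exact absurd e' (by simp)
    · exact e
  six := six
  clsG := clsG h a
  clsG_self := by
    rintro (s | r) g
    · exact mem_singleton.2 rfl
    · exact cl_self g
  clsG_eq := by
    rintro (s | r) g g' hg
    · have : g' = g := mem_singleton.1 hg
      rw [this]
    · exact cl_eq hg
  clsG_sub := clsG_sub
  clsG_sd := by
    intro s g g' q hg hg'
    have : g' = g := mem_singleton.1 hg
    rw [← this]; exact hg'
  K1 := by
    rintro (s | r) g g' hg
    · obtain ⟨W, hW1, hW2⟩ := K1_inl (a := a) s g g' (fun e => hg (mem_singleton.2 e))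
      exact ⟨W, by omega, hW2⟩
    · obtain ⟨W, hW1, hW2⟩ := K1_inr (a := a) r g g' hg
      exact ⟨W, by omega, hW2⟩
  K2 := by
    rintro (s | r) g hg
    · exact K2_inl half hh s g (fun q => hg s q rfl)
    · obtain ⟨W, hW1, hW2⟩ := K2_inr half hh r g
      exact ⟨W, by omega, hW2⟩
  deg := degree

end

end Dih

end H104LHC
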