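import Pool.Agent.H104_LHC.Avoid
import Pool.Agent.H104_LHC.DihBase

/-!
# Sparse subsets of `[n]⁴` are avoided by Latin cubes, for every order `n`
-/

set_option autoImplicit false

namespace H104LHC

open Finset

open Classical in
theorem avoid_const (K : ℕ) (hK : 2 ≤ K) : ∃ N : ℕ, 0 < N ∧ ∀ (α : Type) [Fintype α] (d : ℕ)
    (_ : SpreadSys α K d), Fintype.card α ≤ 6 * d → ∀ (E : (Fin 4 → α) → Prop) (k : ℕ), 1 ≤ k →
    (∀ (x : Fin 4 → α) (q : Fin 4),
      (univ.filter (fun z => E (Function.update x q z))).card ≤ k) →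
    k * N ≤ Fintype.card α →
    ∃ L : α → α → α → α,
      (∀ j l, Function.Injective (fun i => L i j l)) ∧
      (∀ i l, Function.Injective (fun j => L i j l)) ∧
      (∀ i j, Function.Injective (fun l => L i j l)) ∧
      ∀ i j l, ¬ E ![i, j, l, L i j l] := by
  refine ⟨_, ?_, fun α _ d S hd E k hk hE hbig => avoid S hK hd E k hk hE hbig⟩
  have h1 : 0 < K := by omega
  exact Nat.mul_pos (Nat.mul_pos (Nat.mul_pos (by norm_num) (by positivity))
    (Nat.pow_pos (by norm_num))) (by positivity)

/-- spread systems exist for every order at least 100 -/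
theorem exists_spread (n : ℕ) (hn : 100 ≤ n) : ∃ (α : Type) (_ : Fintype α) (d : ℕ)
    (_ : SpreadSys α 100 d), Fintype.card α = n ∧ n ≤ 6 * d := by
  set a := (n + 4) % 8 with ha
  set h := (n - a) / 4 with hh
  have ha8 : a < 8 := Nat.mod_lt _ (by norm_num)
  have h1 : n = 4 * h + a := by omega
  have h2 : h % 2 = 1 := by omega
  have h3 : a ≤ h := by omega
  have : NeZero h := ⟨by omega⟩
  have hhalf : (2 : ZMod h) * (((h + 1) / 2 : ℕ) : ZMod h) = 1 := by
    have h4 : 2 * ((h + 1) / 2) = h + 1 := by omega
    calc (2 : ZMod h) * (((h + 1) / 2 : ℕ) : ZMod h) = ((2 * ((h + 1) / 2) : ℕ) : ZMod h) := by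
          push_cast; rfl
      _ = ((h + 1 : ℕ) : ZMod h) := by rw [h4]
      _ = 1 := by push_cast; rw [ZMod.natCast_self]; ring
  refine ⟨Dih.G h ⊕ Fin a, inferInstance, h,
    (Dih.base (a := a) _ hhalf h3).toSpread 100 (by omega) ?_, ?_, by omega⟩
  · rw [Fintype.card_fin]; omega
  · rw [Fintype.card_sum, Fintype.card_prod, Fintype.card_prod, Fintype.card_bool, ZMod.card,
      Fintype.card_fin]
    omega

open Classical in
/-- There is a constant `N` such that for all `n` and `k ≥ 1` with `k N ≤ n`, every subset of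
`[n]⁴` meeting every line in at most `k` points is avoided by a Latin cube. -/
theorem avoid_all : ∃ N : ℕ, 0 < N ∧ ∀ (n k : ℕ) (E : (Fin 4 → Fin n) → Prop), 1 ≤ k →
    (∀ (x : Fin 4 → Fin n) (q : Fin 4),
      (univ.filter (fun z => E (Function.update x q z))).card ≤ k) →
    k * N ≤ n →
    ∃ L : Fin n → Fin n → Fin n → Fin n,
      (∀ j l, Function.Injective (fun i => L i j l)) ∧
      (∀ i l, Function.Injective (fun j => L i j l)) ∧
      (∀ i j, Function.Injective (fun l => L i j l)) ∧
      ∀ i j l, ¬ E ![i, j, l, L i j l] := by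
  obtain ⟨N, hN, hmain⟩ := avoid_const 100 (by norm_num)
  refine ⟨N + 100, by omega, ?_⟩
  intro n k E hk hE hbig
  have hn : 100 ≤ n := by nlinarith
  obtain ⟨α, _, d, S, hcard, hd⟩ := exists_spread n hn
  have hbig' : k * N ≤ Fintype.card α := by
    rw [hcard]
    have : k * N ≤ k * (N + 100) := Nat.mul_le_mul_left k (by omega)
    omega
  have e : Fin n ≃ α := Fintype.equivOfCardEq (by rw [Fintype.card_fin, hcard])
  obtain ⟨L, h1, h2, h3, h4⟩ := hmain α d S (by rw [hcard]; exact hd)
    (fun x => E (fun q => e.symm (x q))) k hk (by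
      intro x q
      refine le_trans ?_ (hE (fun q => e.symm (x q)) q)
      refine card_le_card_of_injOn (fun z => e.symm z) ?_ ?_
      · intro z hz
        rw [mem_coe, mem_filter] at hz ⊢
        refine ⟨mem_univ _, ?_⟩
        have h5 : (fun q' => e.symm (Function.update x q z q')) =
            Function.update (fun q => e.symm (x q)) q (e.symm z) := by
          funext q'
          by_cases hq : q' = q
          · subst hq; simp
          · simp [Function.update_of_ne hq]
        rw [← h5]
        exact hz.2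
      · intro z _ z' _ hzz
        exact e.symm.injective hzz) hbig'
  refine ⟨fun i j l => e.symm (L (e i) (e j) (e l)), ?_, ?_, ?_, ?_⟩
  · intro j l i i' h
    exact e.injective (h1 _ _ (e.symm.injective h))
  · intro i l j j' h
    exact e.injective (h2 _ _ (e.symm.injective h))
  · intro i j l l' h
    exact e.injective (h3 _ _ (e.symm.injective h))
  · intro i j l h
    apply h4 (e i) (e j) (e l)
    convert h using 1
    funext q
    fin_cases q <;> simp

end H104LHC
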