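import Pool.Agent.H104_LHC.Core

/-!
# Prolongation: from a base family of permutations to a spread system
-/

set_option autoImplicit false

namespace H104LHC

open Finset

/-- Base data on `G` with `A` extra rows. -/
structure Base (G A : Type) (k1 k2 d : ℕ) where
  ρ : G ⊕ A → Equiv.Perm G
  kk : G → A → G
  M : A → A → A
  M_row : ∀ r, Function.Surjective (M r)
  M_row_inj : ∀ r, Function.Injective (M r)
  M_col : ∀ q, Function.Injective (fun r => M r q)
  C1 : ∀ s s' i, ρ (Sum.inl s) i = ρ (Sum.inl s') i → s = s'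
  C2 : ∀ r r' i, ρ (Sum.inr r) i = ρ (Sum.inr r') i → r = r'
  C3 : ∀ s r i, ρ (Sum.inl s) i = ρ (Sum.inr r) i ↔ i = kk s r
  C5 : ∀ q, Function.Injective (fun s => kk s q)
  C6 : ∀ s, Function.Injective (kk s)
  adj : G ⊕ A → G ⊕ A → Prop
  adj_symm : ∀ {s t}, adj s t → adj t s
  adj_ne : ∀ {s t}, adj s t → s ≠ t
  six : ∀ {s t}, adj s t → ((ρ s)⁻¹ * ρ t) ^ 6 = 1
  clsG : G ⊕ A → G → Finset G
  clsG_self : ∀ s g, g ∈ clsG s g
  clsG_eq : ∀ {s g g'}, g' ∈ clsG s g → clsG s g' = clsG s g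
  clsG_sub : ∀ {s t} g, adj s t → ∀ g' ∈ clsG s g, ((ρ s)⁻¹ * ρ t).SameCycle g g'
  clsG_sd : ∀ s g g' q, g' ∈ clsG (Sum.inl s) g → g' = kk s q → g = kk s q
  K1 : ∀ s g g', g' ∉ clsG s g → ∃ W : Finset (G ⊕ A), W.card ≤ k1 ∧
    ∀ t, adj s t → ((ρ s)⁻¹ * ρ t).SameCycle g g' → t ∈ W
  K2 : ∀ s g, (∀ s0 q, s = Sum.inl s0 → g ≠ kk s0 q) → ∃ W : Finset (G ⊕ A), W.card ≤ k2 ∧
    ∀ t, adj s t → (∃ s0 q, (Sum.inl s0 = s ∨ Sum.inl s0 = t) ∧
      ((ρ s)⁻¹ * ρ t).SameCycle (kk s0 q) g) → t ∈ W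
  deg : ∀ s, ∃ W : Finset (G ⊕ A), d ≤ W.card ∧ ∀ t ∈ W, adj s t

namespace Base

variable {G A : Type} {k1 k2 d : ℕ} (B : Base G A k1 k2 d)

/-- seeds of a row -/
def sd (s : G ⊕ A) (g : G) : Prop := ∃ s0 q, s = Sum.inl s0 ∧ g = B.kk s0 q

open Classical in
/-- the prolonged Latin square -/
noncomputable def Q : G ⊕ A → G ⊕ A → G ⊕ A
  | Sum.inl s, Sum.inl i => if h : ∃ q, i = B.kk s q then Sum.inr h.choose
      else Sum.inl (B.ρ (Sum.inl s) i)
  | Sum.inl s, Sum.inr q => Sum.inl (B.ρ (Sum.inl s) (B.kk s q))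
  | Sum.inr r, Sum.inl i => Sum.inl (B.ρ (Sum.inr r) i)
  | Sum.inr r, Sum.inr q => Sum.inr (B.M r q)

theorem Q_seed (s : G) (q : A) : B.Q (Sum.inl s) (Sum.inl (B.kk s q)) = Sum.inr q := by
  have h : ∃ q', B.kk s q = B.kk s q' := ⟨q, rfl⟩
  unfold Q
  simp only [dif_pos h]
  exact congrArg _ (B.C6 s h.choose_spec).symm

theorem Q_nonseed (s : G ⊕ A) (g : G) (h : ¬ B.sd s g) :
    B.Q s (Sum.inl g) = Sum.inl (B.ρ s g) := by
  rcases s with s | r
  · have h' : ¬ ∃ q, g = B.kk s q := by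
      rintro ⟨q, hq⟩
      exact h ⟨s, q, rfl, hq⟩
    unfold Q
    simp only [dif_neg h']
  · rfl

theorem Q_inr (s : G) (q : A) : B.Q (Sum.inl s) (Sum.inr q) =
    Sum.inl (B.ρ (Sum.inl s) (B.kk s q)) := rfl

theorem Q_inr_inr (r q : A) : B.Q (Sum.inr r) (Sum.inr q) = Sum.inr (B.M r q) := rfl

theorem Q_inr_inl (r : A) (g : G) : B.Q (Sum.inr r) (Sum.inl g) = Sum.inl (B.ρ (Sum.inr r) g) := rfl

theorem inj_row (s : G ⊕ A) : Function.Injective (B.Q s) := by
  rcases s with s | r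
  · rintro (i | q) (i' | q') h
    · by_cases h1 : ∃ q, i = B.kk s q
      · obtain ⟨q, rfl⟩ := h1
        rw [Q_seed] at h
        by_cases h2 : ∃ q', i' = B.kk s q'
        · obtain ⟨q', rfl⟩ := h2
          rw [Q_seed] at h
          rw [Sum.inr_injective h]
        · rw [Q_nonseed B (Sum.inl s) i' (by
            rintro ⟨s0, q0, hs, hi⟩
            rw [← Sum.inl_injective hs] at hi
            exact h2 ⟨q0, hi⟩)] at h
          exact absurd h (by simp)
      · rw [Q_nonseed B (Sum.inl s) i (by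
            rintro ⟨s0, q0, hs, hi⟩
            rw [← Sum.inl_injective hs] at hi
            exact h1 ⟨q0, hi⟩)] at h
        by_cases h2 : ∃ q', i' = B.kk s q'
        · obtain ⟨q', rfl⟩ := h2
          rw [Q_seed] at h
          exact absurd h (by simp)
        · rw [Q_nonseed B (Sum.inl s) i' (by
            rintro ⟨s0, q0, hs, hi⟩
            rw [← Sum.inl_injective hs] at hi
            exact h2 ⟨q0, hi⟩)] at h
          rw [(B.ρ (Sum.inl s)).injective (Sum.inl_injective h)]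
    · rw [Q_inr] at h
      by_cases h1 : ∃ q, i = B.kk s q
      · obtain ⟨q, rfl⟩ := h1
        rw [Q_seed] at h
        exact absurd h (by simp)
      · rw [Q_nonseed B (Sum.inl s) i (by
            rintro ⟨s0, q0, hs, hi⟩
            rw [← Sum.inl_injective hs] at hi
            exact h1 ⟨q0, hi⟩)] at h
        exact absurd ⟨q', (B.ρ (Sum.inl s)).injective (Sum.inl_injective h)⟩ h1
    · rw [Q_inr] at h
      by_cases h1 : ∃ q, i' = B.kk s q
      · obtain ⟨q, rfl⟩ := h1
        rw [Q_seed] at h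
        exact absurd h (by simp)
      · rw [Q_nonseed B (Sum.inl s) i' (by
            rintro ⟨s0, q0, hs, hi⟩
            rw [← Sum.inl_injective hs] at hi
            exact h1 ⟨q0, hi⟩)] at h
        exact absurd ⟨q, ((B.ρ (Sum.inl s)).injective (Sum.inl_injective h)).symm⟩ h1
    · rw [Q_inr, Q_inr] at h
      rw [B.C6 s ((B.ρ (Sum.inl s)).injective (Sum.inl_injective h))]
  · rintro (i | q) (i' | q') h
    · rw [Q_inr_inl, Q_inr_inl] at h
      rw [(B.ρ (Sum.inr r)).injective (Sum.inl_injective h)]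
    · rw [Q_inr_inl, Q_inr_inr] at h
      exact absurd h (by simp)
    · rw [Q_inr_inl, Q_inr_inr] at h
      exact absurd h (by simp)
    · rw [Q_inr_inr, Q_inr_inr] at h
      rw [B.M_row_inj r (Sum.inr_injective h)]

theorem C4 (q : A) {s s' : G}
    (h : B.ρ (Sum.inl s) (B.kk s q) = B.ρ (Sum.inl s') (B.kk s' q)) : s = s' := by
  rw [(B.C3 s q _).2 rfl, (B.C3 s' q _).2 rfl] at h
  exact B.C5 q ((B.ρ (Sum.inr q)).injective h)

theorem inj_col (i : G ⊕ A) : Function.Injective (fun s => B.Q s i) := by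
  rcases i with i | q
  · rintro (s | r) (s' | r') h
    · have h' : B.Q (Sum.inl s) (Sum.inl i) = B.Q (Sum.inl s') (Sum.inl i) := h
      by_cases h1 : B.sd (Sum.inl s) i
      · obtain ⟨s0, q, hs, hi⟩ := h1
        obtain rfl := Sum.inl_injective hs
        by_cases h2 : B.sd (Sum.inl s') i
        · obtain ⟨s0', q', hs', hi'⟩ := h2
          obtain rfl := Sum.inl_injective hs'
          have e1 : B.Q (Sum.inl s) (Sum.inl i) = Sum.inr q := by rw [hi, Q_seed]
          have e2 : B.Q (Sum.inl s') (Sum.inl i) = Sum.inr q' := by rw [hi', Q_seed]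
          rw [e1, e2] at h'
          have e3 := Sum.inr_injective h'
          rw [← e3] at hi'
          have e4 : B.kk s q = B.kk s' q := by rw [← hi, ← hi']
          rw [B.C5 q e4]
        · rw [Q_nonseed B _ i h2, hi, Q_seed] at h'
          exact absurd h' (by simp)
      · rw [Q_nonseed B _ i h1] at h'
        by_cases h2 : B.sd (Sum.inl s') i
        · obtain ⟨s0', q', hs', hi'⟩ := h2
          obtain rfl := Sum.inl_injective hs'
          rw [hi', Q_seed] at h'
          exact absurd h' (by simp)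
        · rw [Q_nonseed B _ i h2] at h'
          rw [B.C1 s s' i (Sum.inl_injective h')]
    · have h' : B.Q (Sum.inl s) (Sum.inl i) = B.Q (Sum.inr r') (Sum.inl i) := h
      rw [Q_inr_inl] at h'
      by_cases h1 : B.sd (Sum.inl s) i
      · obtain ⟨s0, q, hs, hi⟩ := h1
        obtain rfl := Sum.inl_injective hs
        rw [hi, Q_seed] at h'
        exact absurd h' (by simp)
      · have h2 := h'
        rw [Q_nonseed B _ i h1] at h2
        exact absurd ⟨s, r', rfl, (B.C3 s r' i).1 (Sum.inl_injective h2)⟩ h1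
    · have h' : B.Q (Sum.inr r) (Sum.inl i) = B.Q (Sum.inl s') (Sum.inl i) := h
      rw [Q_inr_inl] at h'
      by_cases h1 : B.sd (Sum.inl s') i
      · obtain ⟨s0, q, hs, hi⟩ := h1
        obtain rfl := Sum.inl_injective hs
        rw [hi, Q_seed] at h'
        exact absurd h' (by simp)
      · have h2 := h'
        rw [Q_nonseed B _ i h1] at h2
        exact absurd ⟨s', r, rfl, (B.C3 s' r i).1 (Sum.inl_injective h2).symm⟩ h1
    · have h' : B.Q (Sum.inr r) (Sum.inl i) = B.Q (Sum.inr r') (Sum.inl i) := h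
      rw [Q_inr_inl, Q_inr_inl] at h'
      rw [B.C2 r r' i (Sum.inl_injective h')]
  · rintro (s | r) (s' | r') h
    · have h' : B.Q (Sum.inl s) (Sum.inr q) = B.Q (Sum.inl s') (Sum.inr q) := h
      rw [Q_inr, Q_inr] at h'
      rw [B.C4 q (Sum.inl_injective h')]
    · have h' : B.Q (Sum.inl s) (Sum.inr q) = B.Q (Sum.inr r') (Sum.inr q) := h
      rw [Q_inr, Q_inr_inr] at h'
      exact absurd h' (by simp)
    · have h' : B.Q (Sum.inr r) (Sum.inr q) = B.Q (Sum.inl s') (Sum.inr q) := h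
      rw [Q_inr, Q_inr_inr] at h'
      exact absurd h' (by simp)
    · have h' : B.Q (Sum.inr r) (Sum.inr q) = B.Q (Sum.inr r') (Sum.inr q) := h
      rw [Q_inr_inr, Q_inr_inr] at h'
      rw [B.M_col q (Sum.inr_injective h')]

/-- the transition permutation -/
def τ (s t : G ⊕ A) : Equiv.Perm G := (B.ρ s)⁻¹ * B.ρ t

theorem τ_symm (s t : G ⊕ A) : B.τ t s = (B.τ s t)⁻¹ := by
  unfold τ
  rw [mul_inv_rev, inv_inv]

theorem same_symm (s t : G ⊕ A) (g g' : G) :
    (B.τ s t).SameCycle g g' ↔ (B.τ t s).SameCycle g g' := by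
  rw [τ_symm B s t, Equiv.Perm.sameCycle_inv]

theorem ρ_τ (s t : G ⊕ A) (g : G) : B.ρ s (B.τ s t g) = B.ρ t g := by
  unfold τ
  simp

/-- membership in the perturbed part -/
def U (s t : G ⊕ A) (g : G) : Prop :=
  ∃ c, (B.sd s c ∨ B.sd t c) ∧ (B.τ s t).SameCycle c g

theorem U_symm (s t : G ⊕ A) (g : G) : B.U s t g ↔ B.U t s g := by
  unfold U
  constructor
  · rintro ⟨c, h1, h2⟩
    exact ⟨c, h1.symm, (B.same_symm s t c g).1 h2⟩
  · rintro ⟨c, h1, h2⟩
    exact ⟨c, h1.symm, (B.same_symm t s c g).1 h2⟩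

theorem U_same {s t : G ⊕ A} {g g' : G} (h : B.U s t g) (h' : (B.τ s t).SameCycle g g') :
    B.U s t g' := by
  obtain ⟨c, h1, h2⟩ := h
  exact ⟨c, h1, h2.trans h'⟩

variable [Fintype G] [Fintype A]

open Classical in
/-- orbits -/
noncomputable def orb (s t : G ⊕ A) (g : G) : Finset (G ⊕ A) :=
  (univ.filter (fun g' => (B.τ s t).SameCycle g g')).disjSum (∅ : Finset A)

open Classical in
/-- perturbed block -/
noncomputable def UB (s t : G ⊕ A) : Finset (G ⊕ A) :=
  (univ.filter (fun g' => B.U s t g')).disjSum (univ : Finset A)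

theorem inl_mem_orb {s t : G ⊕ A} {g g' : G} :
    Sum.inl g' ∈ B.orb s t g ↔ (B.τ s t).SameCycle g g' := by
  classical
  unfold orb
  rw [inl_mem_disjSum, mem_filter]
  simp

theorem inr_mem_orb {s t : G ⊕ A} {g : G} {q : A} : Sum.inr q ∉ B.orb s t g := by
  classical
  unfold orb
  rw [inr_mem_disjSum]
  simp

theorem inl_mem_UB {s t : G ⊕ A} {g' : G} :
    Sum.inl g' ∈ B.UB s t ↔ B.U s t g' := by
  classical
  unfold UB
  rw [inl_mem_disjSum, mem_filter]
  simp

theorem inr_mem_UB {s t : G ⊕ A} {q : A} : Sum.inr q ∈ B.UB s t := by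
  classical
  unfold UB
  rw [inr_mem_disjSum]
  simp

open Classical in
/-- blocks -/
noncomputable def blk (s t : G ⊕ A) : G ⊕ A → Finset (G ⊕ A)
  | Sum.inl g => if B.U s t g then B.UB s t else B.orb s t g
  | Sum.inr _ => B.UB s t

theorem blk_of_U {s t : G ⊕ A} {g : G} (h : B.U s t g) : B.blk s t (Sum.inl g) = B.UB s t := by
  unfold blk
  simp only [if_pos h]

theorem blk_of_not_U {s t : G ⊕ A} {g : G} (h : ¬ B.U s t g) :
    B.blk s t (Sum.inl g) = B.orb s t g := by
  unfold blk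
  simp only [if_neg h]

theorem blk_inr {s t : G ⊕ A} {q : A} : B.blk s t (Sum.inr q) = B.UB s t := rfl

theorem blk_self (s t : G ⊕ A) (x : G ⊕ A) : x ∈ B.blk s t x := by
  rcases x with g | q
  · by_cases h : B.U s t g
    · rw [blk_of_U B h, inl_mem_UB]; exact h
    · rw [blk_of_not_U B h, inl_mem_orb]
  · rw [blk_inr]; exact B.inr_mem_UB

theorem orb_eq {s t : G ⊕ A} {g g' : G} (h : (B.τ s t).SameCycle g g') :
    B.orb s t g' = B.orb s t g := by
  ext x
  rcases x with x | q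
  · rw [inl_mem_orb, inl_mem_orb]
    exact ⟨fun h' => h.trans h', fun h' => h.symm.trans h'⟩
  · simp [inr_mem_orb]

theorem blk_eq {s t x x' : G ⊕ A} (hx : x' ∈ B.blk s t x) : B.blk s t x' = B.blk s t x := by
  have hUB : ∀ {y}, y ∈ B.UB s t → B.blk s t y = B.UB s t := by
    rintro (g | q) hy
    · rw [inl_mem_UB] at hy
      exact blk_of_U B hy
    · rfl
  rcases x with g | q
  · by_cases h : B.U s t g
    · rw [blk_of_U B h] at hx ⊢
      exact hUB hx
    · rw [blk_of_not_U B h] at hx ⊢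
      rcases x' with g' | q'
      · rw [inl_mem_orb] at hx
        have h2 : ¬ B.U s t g' := fun h3 => h (B.U_same h3 hx.symm)
        rw [blk_of_not_U B h2]
        exact B.orb_eq hx
      · exact absurd hx B.inr_mem_orb
  · rw [blk_inr] at hx ⊢
    exact hUB hx

theorem blk_symm (s t x : G ⊕ A) : B.blk s t x = B.blk t s x := by
  have h1 : B.UB s t = B.UB t s := by
    ext y
    rcases y with y | q
    · rw [inl_mem_UB, inl_mem_UB]; exact B.U_symm s t y
    · simp [inr_mem_UB]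
  rcases x with g | q
  · by_cases h : B.U s t g
    · rw [blk_of_U B h, blk_of_U B ((B.U_symm s t g).1 h), h1]
    · rw [blk_of_not_U B h, blk_of_not_U B (fun h' => h ((B.U_symm s t g).2 h'))]
      ext y
      rcases y with y | q
      · rw [inl_mem_orb, inl_mem_orb]; exact B.same_symm s t g y
      · simp [inr_mem_orb]
  · rw [blk_inr, blk_inr, h1]

/-- the preimage step in the perturbed block -/
theorem img_UB {s t : G ⊕ A} (y : G) (hy : B.U s t y) :
    ∃ j' ∈ B.UB s t, B.Q s j' = Sum.inl (B.ρ s y) := by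
  by_cases h : B.sd s y
  · obtain ⟨s0, q, rfl, rfl⟩ := h
    exact ⟨Sum.inr q, B.inr_mem_UB, rfl⟩
  · exact ⟨Sum.inl y, B.inl_mem_UB.2 hy, B.Q_nonseed s y h⟩

theorem img_UB_inr (s t : G ⊕ A) (q : A) : ∃ j' ∈ B.UB s t, B.Q s j' = Sum.inr q := by
  rcases s with s | r
  · refine ⟨Sum.inl (B.kk s q), B.inl_mem_UB.2 ⟨B.kk s q, Or.inl ⟨s, q, rfl, rfl⟩, ?_⟩,
      B.Q_seed s q⟩
    exact Equiv.Perm.SameCycle.refl _ _
  · obtain ⟨q', hq'⟩ := B.M_row r q
    exact ⟨Sum.inr q', B.inr_mem_UB, by rw [Q_inr_inr, hq']⟩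

theorem blk_img (s t x : G ⊕ A) : ∀ j ∈ B.blk s t x, ∃ j' ∈ B.blk s t x, B.Q s j' = B.Q t j := by
  have hUB : ∀ j ∈ B.UB s t, ∃ j' ∈ B.UB s t, B.Q s j' = B.Q t j := by
    -- a helper for values `ρ t g`
    have hval : ∀ g, B.U s t g → ∃ j' ∈ B.UB s t, B.Q s j' = Sum.inl (B.ρ t g) := by
      intro g hg
      have h1 : B.U s t (B.τ s t g) :=
        B.U_same hg (Equiv.Perm.SameCycle.refl _ _).apply_right
      obtain ⟨j', hj', h2⟩ := B.img_UB (B.τ s t g) h1
      refine ⟨j', hj', ?_⟩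
      rw [h2, ρ_τ]
    rintro (g | q) hj
    · rw [inl_mem_UB] at hj
      by_cases h : B.sd t g
      · obtain ⟨t0, q, rfl, rfl⟩ := h
        rw [Q_seed]
        exact B.img_UB_inr s _ q
      · rw [Q_nonseed B t g h]
        exact hval g hj
    · rcases t with t | r
      · rw [Q_inr]
        refine hval (B.kk t q) ⟨B.kk t q, Or.inr ⟨t, q, rfl, rfl⟩, ?_⟩
        exact Equiv.Perm.SameCycle.refl _ _
      · rw [Q_inr_inr]
        exact B.img_UB_inr s _ _
  rcases x with g | q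
  · by_cases h : B.U s t g
    · rw [blk_of_U B h]; exact hUB
    · rw [blk_of_not_U B h]
      rintro (g' | q') hj
      · rw [inl_mem_orb] at hj
        have h2 : ∀ c, (B.τ s t).SameCycle g c → ¬ B.sd s c ∧ ¬ B.sd t c := by
          intro c hc
          constructor
          · intro hs
            exact h ⟨c, Or.inl hs, hc.symm⟩
          · intro ht
            exact h ⟨c, Or.inr ht, hc.symm⟩
        have h3 : (B.τ s t).SameCycle g (B.τ s t g') := hj.apply_right
        refine ⟨Sum.inl (B.τ s t g'), B.inl_mem_orb.2 h3, ?_⟩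
        rw [Q_nonseed B s _ (h2 _ h3).1, Q_nonseed B t _ (h2 _ hj).2, ρ_τ]
      · exact absurd hj B.inr_mem_orb
  · rw [blk_inr]; exact hUB

theorem orb_card {s t : G ⊕ A} (h : B.adj s t) (g : G) : (B.orb s t g).card ≤ 6 := by
  classical
  unfold orb
  rw [card_disjSum, card_empty, add_zero]
  have hsub : univ.filter (fun g' => (B.τ s t).SameCycle g g') ⊆
      (range 6).image (fun j : ℕ => (B.τ s t ^ j) g) := by
    intro g' hg'
    rw [mem_filter] at hg'
    obtain ⟨z, hz⟩ := hg'.2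
    have h6 : (B.τ s t) ^ (6 : ℤ) = 1 := by
      have := B.six h
      exact_mod_cast this
    have h1 := zpow_eq_zpow_emod (x := B.τ s t) z h6
    rw [h1] at hz
    have h2 : 0 ≤ z % 6 := Int.emod_nonneg _ (by norm_num)
    have h3 : z % 6 < 6 := Int.emod_lt_of_pos _ (by norm_num)
    rw [mem_image]
    refine ⟨(z % 6).toNat, ?_, ?_⟩
    · rw [mem_range]; omega
    · rw [← hz, ← zpow_natCast, Int.toNat_of_nonneg h2]
  refine (card_le_card hsub).trans (card_image_le.trans ?_)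
  rw [card_range]

theorem UB_card {s t : G ⊕ A} (h : B.adj s t) : (B.UB s t).card ≤ 13 * Fintype.card A := by
  classical
  unfold UB
  rw [card_disjSum, card_univ]
  have hsd : ∀ s : G ⊕ A, ∃ Z : Finset G, Z.card ≤ Fintype.card A ∧ ∀ c, B.sd s c → c ∈ Z := by
    rintro (s0 | r)
    · refine ⟨univ.image (B.kk s0), card_image_le.trans (le_of_eq card_univ), ?_⟩
      rintro c ⟨s1, q, hs, hc⟩
      rw [mem_image]
      obtain rfl := Sum.inl_injective hs
      exact ⟨q, mem_univ _, hc.symm⟩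
    · refine ⟨∅, by simp, ?_⟩
      rintro c ⟨s1, q, hs, hc⟩
      exact absurd hs (by simp)
  obtain ⟨Z, hZ1, hZ2⟩ := hsd s
  obtain ⟨Z', hZ1', hZ2'⟩ := hsd t
  have hcyc : ∀ c, (univ.filter (fun g' => (B.τ s t).SameCycle c g')).card ≤ 6 := by
    intro c
    have := B.orb_card h c
    unfold orb at this
    rw [card_disjSum, card_empty, add_zero] at this
    exact this
  have hsub : univ.filter (fun g' => B.U s t g') ⊆
      (Z ∪ Z').biUnion (fun c => univ.filter (fun g' => (B.τ s t).SameCycle c g')) := by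
    intro g' hg'
    rw [mem_filter] at hg'
    obtain ⟨c, hc, hcg⟩ := hg'.2
    rw [mem_biUnion]
    refine ⟨c, ?_, mem_filter.2 ⟨mem_univ _, hcg⟩⟩
    rw [mem_union]
    rcases hc with hc | hc
    · exact Or.inl (hZ2 c hc)
    · exact Or.inr (hZ2' c hc)
  have h1 := (card_le_card hsub).trans (card_biUnion_le_card_mul _ _ 6 (fun c _ => hcyc c))
  have h2 := card_union_le Z Z'
  omega

open Classical in
/-- classes -/
noncomputable def cls (s : G ⊕ A) : G ⊕ A → Finset (G ⊕ A)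
  | Sum.inl g => if B.sd s g then (univ.filter (fun g' => B.sd s g')).disjSum univ
      else (B.clsG s g).disjSum ∅
  | Sum.inr _ => (univ.filter (fun g' => B.sd s g')).disjSum univ

open Classical in
/-- the special class -/
noncomputable def BB (s : G ⊕ A) : Finset (G ⊕ A) :=
  (univ.filter (fun g' => B.sd s g')).disjSum univ

theorem inl_mem_BB {s : G ⊕ A} {g : G} : Sum.inl g ∈ B.BB s ↔ B.sd s g := by
  classical
  unfold BB
  rw [inl_mem_disjSum, mem_filter]
  simp

theorem inr_mem_BB {s : G ⊕ A} {q : A} : Sum.inr q ∈ B.BB s := by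
  classical
  unfold BB
  rw [inr_mem_disjSum]
  simp

theorem cls_sd {s : G ⊕ A} {g : G} (h : B.sd s g) : B.cls s (Sum.inl g) = B.BB s := by
  unfold cls BB
  simp only [if_pos h]

theorem cls_not_sd {s : G ⊕ A} {g : G} (h : ¬ B.sd s g) :
    B.cls s (Sum.inl g) = (B.clsG s g).disjSum ∅ := by
  unfold cls
  simp only [if_neg h]

theorem cls_inr {s : G ⊕ A} {q : A} : B.cls s (Sum.inr q) = B.BB s := rfl

theorem cls_self (s x : G ⊕ A) : x ∈ B.cls s x := by
  rcases x with g | q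
  · by_cases h : B.sd s g
    · rw [cls_sd B h, inl_mem_BB]; exact h
    · rw [cls_not_sd B h, inl_mem_disjSum]
      exact B.clsG_self s g
  · rw [cls_inr]; exact B.inr_mem_BB

theorem sd_cls {s : G ⊕ A} {g g' : G} (h : ¬ B.sd s g) (h' : g' ∈ B.clsG s g) : ¬ B.sd s g' := by
  rintro ⟨s0, q, rfl, hg'⟩
  exact h ⟨s0, q, rfl, B.clsG_sd s0 g g' q h' hg'⟩

theorem cls_eq {s x x' : G ⊕ A} (hx : x' ∈ B.cls s x) : B.cls s x' = B.cls s x := by
  have hBB : ∀ {y}, y ∈ B.BB s → B.cls s y = B.BB s := by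
    rintro (g | q) hy
    · rw [inl_mem_BB] at hy
      exact cls_sd B hy
    · rfl
  rcases x with g | q
  · by_cases h : B.sd s g
    · rw [cls_sd B h] at hx ⊢
      exact hBB hx
    · rw [cls_not_sd B h] at hx ⊢
      rcases x' with g' | q'
      · rw [inl_mem_disjSum] at hx
        rw [cls_not_sd B (B.sd_cls h hx), B.clsG_eq hx]
      · rw [inr_mem_disjSum] at hx
        exact absurd hx (by simp)
  · rw [cls_inr] at hx ⊢
    exact hBB hx

theorem BB_sub (s t : G ⊕ A) : B.BB s ⊆ B.UB s t := by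
  rintro (g | q) h
  · rw [inl_mem_BB] at h
    rw [inl_mem_UB]
    exact ⟨g, Or.inl h, Equiv.Perm.SameCycle.refl _ _⟩
  · exact B.inr_mem_UB

theorem cls_sub {s t : G ⊕ A} (x : G ⊕ A) (h : B.adj s t) : B.cls s x ⊆ B.blk s t x := by
  rcases x with g | q
  · by_cases h1 : B.sd s g
    · rw [cls_sd B h1, blk_of_U B ⟨g, Or.inl h1, Equiv.Perm.SameCycle.refl _ _⟩]
      exact B.BB_sub s t
    · rw [cls_not_sd B h1]
      rintro (g' | q') hx
      · rw [inl_mem_disjSum] at hx
        have h2 : (B.τ s t).SameCycle g g' := B.clsG_sub g h g' hx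
        by_cases h3 : B.U s t g
        · rw [blk_of_U B h3, inl_mem_UB]
          exact B.U_same h3 h2
        · rw [blk_of_not_U B h3, inl_mem_orb]
          exact h2
      · rw [inr_mem_disjSum] at hx
        exact absurd hx (by simp)
  · rw [cls_inr, blk_inr]
    exact B.BB_sub s t

theorem blk_cases {s t : G ⊕ A} {g g' : G} (h : Sum.inl g' ∈ B.blk s t (Sum.inl g)) :
    (B.U s t g ∧ B.U s t g') ∨ (B.τ s t).SameCycle g g' := by
  by_cases h1 : B.U s t g
  · rw [blk_of_U B h1, inl_mem_UB] at h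
    exact Or.inl ⟨h1, h⟩
  · rw [blk_of_not_U B h1, inl_mem_orb] at h
    exact Or.inr h

theorem K2' (s : G ⊕ A) (g : G) (h : ¬ B.sd s g) : ∃ W : Finset (G ⊕ A), W.card ≤ k2 ∧
    ∀ t, B.adj s t → B.U s t g → t ∈ W := by
  obtain ⟨W, hW1, hW2⟩ := B.K2 s g (by
    rintro s0 q rfl hg
    exact h ⟨s0, q, rfl, hg⟩)
  refine ⟨W, hW1, fun t ht hU => hW2 t ht ?_⟩
  obtain ⟨c, hc, hcg⟩ := hU
  rcases hc with hc | hc
  · obtain ⟨s0, q, rfl, rfl⟩ := hc
    exact ⟨s0, q, Or.inl rfl, hcg⟩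
  · obtain ⟨s0, q, rfl, rfl⟩ := hc
    exact ⟨s0, q, Or.inr rfl, hcg⟩

theorem spread (s x x' : G ⊕ A) (hx : x' ∉ B.cls s x) : ∃ W : Finset (G ⊕ A),
    W.card ≤ k1 + k2 ∧ ∀ t, B.adj s t → x' ∈ B.blk s t x → t ∈ W := by
  classical
  rcases x with g | q
  · by_cases h : B.sd s g
    · rw [cls_sd B h] at hx
      rcases x' with g' | q'
      · rw [inl_mem_BB] at hx
        obtain ⟨W, hW1, hW2⟩ := B.K2' s g' hx
        refine ⟨W, by omega, fun t ht hb => hW2 t ht ?_⟩
        rw [blk_of_U B ⟨g, Or.inl h, Equiv.Perm.SameCycle.refl _ _⟩, inl_mem_UB] at hb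
        exact hb
      · exact absurd B.inr_mem_BB hx
    · rcases x' with g' | q'
      · rw [cls_not_sd B h, inl_mem_disjSum] at hx
        obtain ⟨W, hW1, hW2⟩ := B.K1 s g g' hx
        obtain ⟨W', hW1', hW2'⟩ := B.K2' s g h
        refine ⟨W ∪ W', (card_union_le _ _).trans (by omega), fun t ht hb => ?_⟩
        rw [mem_union]
        rcases B.blk_cases hb with ⟨h1, _⟩ | h1
        · exact Or.inr (hW2' t ht h1)
        · exact Or.inl (hW2 t ht h1)
      · obtain ⟨W', hW1', hW2'⟩ := B.K2' s g h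
        refine ⟨W', by omega, fun t ht hb => hW2' t ht ?_⟩
        by_contra hU
        rw [blk_of_not_U B hU] at hb
        exact B.inr_mem_orb hb
  · rw [cls_inr] at hx
    rcases x' with g' | q'
    · rw [inl_mem_BB] at hx
      obtain ⟨W', hW1', hW2'⟩ := B.K2' s g' hx
      refine ⟨W', by omega, fun t ht hb => hW2' t ht ?_⟩
      rw [blk_inr, inl_mem_UB] at hb
      exact hb
    · exact absurd B.inr_mem_BB hx

/-- The prolongation theorem. -/
noncomputable def toSpread (K : ℕ) (hK1 : k1 + k2 ≤ K) (hK2 : 13 * Fintype.card A + 6 ≤ K) :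
    SpreadSys (G ⊕ A) K d where
  Q := B.Q
  inj_row := B.inj_row
  inj_col := B.inj_col
  adj := B.adj
  adj_symm := B.adj_symm
  adj_ne := B.adj_ne
  blk := B.blk
  blk_self := fun x _ => B.blk_self _ _ x
  blk_eq := fun _ hx => B.blk_eq hx
  blk_symm := fun x _ => B.blk_symm _ _ x
  blk_img := fun x _ => B.blk_img _ _ x
  blk_card := by
    intro s t x h
    have h1 := B.UB_card h
    rcases x with g | q
    · by_cases hU : B.U s t g
      · rw [blk_of_U B hU]; omega
      · rw [blk_of_not_U B hU]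
        have := B.orb_card h g
        omega
    · rw [blk_inr]; omega
  cls := B.cls
  cls_self := B.cls_self
  cls_eq := fun hx => B.cls_eq hx
  cls_sub := fun x h => B.cls_sub x h
  spread := by
    intro s x x' hx
    obtain ⟨W, hW1, hW2⟩ := B.spread s x x' hx
    exact ⟨W, hW1.trans hK1, hW2⟩
  deg := B.deg

end Base

end H104LHC
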