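import Pool.Agent.H104_LHC.Core

/-!
# Switching a disjoint family of trades
-/

set_option autoImplicit false

namespace H104LHC

open Finset

namespace SpreadSys

variable {α : Type} {K d : ℕ} [DecidableEq α] (S : SpreadSys α K d) (E : (Fin 4 → α) → Prop)

theorem det [Fintype α] (m : ℕ) (hm : ∀ s i l, ∃ W : Finset α, W.card ≤ m ∧
      ∀ t, S.adj s t → S.Bad E s i l t → t ∈ W)
    (hq : 0 < d - m) (h4 : 4 * (2 * K * K * m) ≤ d - m) :
    ∃ L : α → α → α → α,
      (∀ j l, Function.Injective (fun i => L i j l)) ∧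
      (∀ i l, Function.Injective (fun j => L i j l)) ∧
      (∀ i j, Function.Injective (fun l => L i j l)) ∧
      ∀ i j l, ¬ E ![i, j, l, L i j l] := by
  classical
  obtain ⟨F, hF1, hF2, hF3⟩ := exists_trades (S := S) (E := E) m hm hq h4
  -- the relation `G`
  set G : α → α → α → α → Prop := fun s i l t => S.adj s t ∧ F (S.tr s t i l) with hG
  have hGu : ∀ {s i l t t'}, G s i l t → G s i l t' → t = t' := by
    rintro s i l t t' ⟨h1, h2⟩ ⟨h1', h2'⟩
    have e := hF2 _ _ h2 h2' ⟨(s, i, l), self_mem_tr h1 i l, self_mem_tr h1' i l⟩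
    have h3 : (t, i, l) ∈ S.tr s t i l :=
      S.mem_tr.2 ⟨Or.inr rfl, S.blk_self i h1, S.blk_self l h1⟩
    rw [e, mem_tr] at h3
    rcases h3.1 with h | h
    · exact absurd h.symm (S.adj_ne h1)
    · exact h
  have hGb : ∀ {s i l t}, G s i l t → ∀ i' ∈ S.blk s t i, ∀ l' ∈ S.blk s t l, G s i' l' t := by
    rintro s i l t ⟨h1, h2⟩ i' hi' l' hl'
    refine ⟨h1, ?_⟩
    rw [tr_eq h1 hi' hl']; exact h2
  have hGs : ∀ {s i l t}, G s i l t → G t i l s := by
    rintro s i l t ⟨h1, h2⟩
    refine ⟨S.adj_symm h1, ?_⟩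
    rw [← tr_symm h1]; exact h2
  -- the switching function
  set g : α → α → α → α := fun s i l => if h : ∃ t, G s i l t then h.choose else s with hg
  have hg1 : ∀ {s i l t}, G s i l t → g s i l = t := by
    intro s i l t h
    have h' : ∃ t, G s i l t := ⟨t, h⟩
    simp only [hg, dif_pos h']
    exact hGu h'.choose_spec h
  have hg2 : ∀ {s i l}, (¬ ∃ t, G s i l t) → g s i l = s := by
    intro s i l h
    simp only [hg, dif_neg h]
  have hgg : ∀ s i l, g (g s i l) i l = s := by
    intro s i l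
    by_cases h : ∃ t, G s i l t
    · obtain ⟨t, ht⟩ := h
      rw [hg1 ht]
      exact hg1 (hGs ht)
    · rw [hg2 h, hg2 h]
  -- rows are switched blockwise
  have hrl : ∀ s i l, ∃ l1, S.Q s l1 = S.Q (g s i l) l ∧ g s i l1 = g s i l := by
    intro s i l
    by_cases h : ∃ t, G s i l t
    · obtain ⟨t, ht⟩ := h
      obtain ⟨l1, hl1, hl2⟩ := S.blk_img l ht.1 l (S.blk_self l ht.1)
      refine ⟨l1, ?_, ?_⟩
      · rw [hg1 ht]; exact hl2
      · rw [hg1 ht]
        exact hg1 (hGb ht i (S.blk_self i ht.1) l1 hl1)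
    · exact ⟨l, by rw [hg2 h], rfl⟩
  have hri : ∀ s i l, ∃ i1, S.Q s i1 = S.Q (g s i l) i ∧ g s i1 l = g s i l := by
    intro s i l
    by_cases h : ∃ t, G s i l t
    · obtain ⟨t, ht⟩ := h
      obtain ⟨i1, hi1, hi2⟩ := S.blk_img i ht.1 i (S.blk_self i ht.1)
      refine ⟨i1, ?_, ?_⟩
      · rw [hg1 ht]; exact hi2
      · rw [hg1 ht]
        exact hg1 (hGb ht i1 hi1 l (S.blk_self l ht.1))
    · exact ⟨i, by rw [hg2 h], rfl⟩
  have hMl : ∀ s i, Function.Injective (fun l => S.Q (g s i l) l) := by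
    intro s i l l' h
    obtain ⟨l1, h1, h2⟩ := hrl s i l
    obtain ⟨l1', h1', h2'⟩ := hrl s i l'
    have h3 : S.Q s l1 = S.Q s l1' := by rw [h1, h1']; exact h
    have h4 := S.inj_row s h3
    have h5 : g s i l = g s i l' := by rw [← h2, ← h2', h4]
    have h6 : S.Q (g s i l) l = S.Q (g s i l) l' := by
      have : S.Q (g s i l) l = S.Q (g s i l') l' := h
      rw [this, h5]
    exact S.inj_row _ h6
  have hMi : ∀ s l, Function.Injective (fun i => S.Q (g s i l) i) := by
    intro s l i i' h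
    obtain ⟨i1, h1, h2⟩ := hri s i l
    obtain ⟨i1', h1', h2'⟩ := hri s i' l
    have h3 : S.Q s i1 = S.Q s i1' := by rw [h1, h1']; exact h
    have h4 := S.inj_row s h3
    have h5 : g s i l = g s i' l := by rw [← h2, ← h2', h4]
    have h6 : S.Q (g s i l) i = S.Q (g s i l) i' := by
      have : S.Q (g s i l) i = S.Q (g s i' l) i' := h
      rw [this, h5]
    exact S.inj_row _ h6
  -- the row of a pair
  have hrow : ∀ i j, ∃ s, S.Q s i = j := fun i j =>
    Finite.injective_iff_surjective.1 (S.inj_col i) j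
  choose row hrow using hrow
  have hrow' : ∀ s i, row i (S.Q s i) = s := fun s i => S.inj_col i (hrow i _)
  refine ⟨fun i j l => S.Q (g (row i j) i l) l, ?_, ?_, ?_, ?_⟩
  · intro j l i i' h
    have h1 : g (row i j) i l = g (row i' j) i' l := S.inj_col l h
    have h2 := hgg (row i j) i l
    have h3 := hgg (row i' j) i' l
    rw [← h1] at h3
    refine hMi (g (row i j) i l) l ?_
    change S.Q (g (g (row i j) i l) i l) i = S.Q (g (g (row i j) i l) i' l) i'
    rw [h2, h3, hrow, hrow]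
  · intro i l j j' h
    have h1 : g (row i j) i l = g (row i j') i l := S.inj_col l h
    have h2 := hgg (row i j) i l
    have h3 := hgg (row i j') i l
    rw [← h1, h2] at h3
    rw [← hrow i j, ← hrow i j', h3]
  · intro i j l l' h
    exact hMl (row i j) i h
  · intro i j l hE
    set s := row i j with hs
    have hj : S.Q s i = j := hrow i j
    change E ![i, j, l, S.Q (g s i l) l] at hE
    by_cases h : ∃ t, G s i l t
    · obtain ⟨t, ht⟩ := h
      have hE' : E (S.pt s t i l) := by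
        unfold pt
        rw [hj]
        rw [hg1 ht] at hE
        exact hE
      obtain ⟨hadj, hFT⟩ := ht
      obtain ⟨P, s0, i0, l0, t0, hP, hadj0, hT0, hbad⟩ := hF1 _ hFT
      apply hbad
      have h1 : (s, i, l) ∈ S.tr s0 t0 i0 l0 := by rw [← hT0]; exact self_mem_tr hadj i l
      have h2 : (t, i, l) ∈ S.tr s0 t0 i0 l0 := by
        rw [← hT0]
        exact S.mem_tr.2 ⟨Or.inr rfl, S.blk_self i hadj, S.blk_self l hadj⟩
      rw [mem_tr] at h1 h2
      refine ⟨i, h1.2.1, l, h1.2.2, s, t, h1.1, h2.1, ?_, hE'⟩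
      rintro ⟨_, _, h3, h4⟩
      exact S.adj_ne hadj (h3.trans h4.symm)
    · have hE' : E (S.pt s s i l) := by
        unfold pt
        rw [hj]
        rw [hg2 h] at hE
        exact hE
      obtain ⟨T, hFT, hopt⟩ := hF3 s i l hE'
      have h1 : (s, i, l) ∈ T := Opt_sub hopt (self_mem_sp s i l)
      obtain ⟨s0, i0, l0, t0, hP, hadj0, rfl, _⟩ := hopt
      have h2 : (s, i, l) ∈ S.sp s0 i0 l0 := by rw [← hP]; exact self_mem_sp s i l
      rw [mem_sp] at h2
      obtain ⟨rfl, _, _⟩ := h2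
      rw [mem_tr] at h1
      apply h
      refine ⟨t0, hadj0, ?_⟩
      rw [tr_eq hadj0 h1.2.1 h1.2.2]
      exact hFT

end SpreadSys

end H104LHC
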