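import Mathlib

/-!
# Independent transversals by a Rosenfeld-type counting argument
-/

set_option autoImplicit false

namespace H104LHC

open Finset

open Classical in
/-- independent partial transversals, with the default value off `S` -/
noncomputable def Om {ι β : Type} [Fintype ι] (A : ι → Finset β) (R : β → β → Prop) (b0 : β)
    (S : Finset ι) : Finset (ι → β) :=
  (Fintype.piFinset (fun i => if i ∈ S then A i else {b0})).filter
    (fun f => ∀ i ∈ S, ∀ j ∈ S, i ≠ j → ¬ R (f i) (f j))

theorem mem_Om {ι β : Type} [Fintype ι] {A : ι → Finset β} {R : β → β → Prop} {b0 : β}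
    {S : Finset ι} {f : ι → β} :
    f ∈ Om A R b0 S ↔ ((∀ i ∈ S, f i ∈ A i) ∧ (∀ i, i ∉ S → f i = b0)) ∧
      ∀ i ∈ S, ∀ j ∈ S, i ≠ j → ¬ R (f i) (f j) := by
  classical
  unfold Om
  rw [mem_filter, Fintype.mem_piFinset]
  constructor
  · rintro ⟨h1, h2⟩
    refine ⟨⟨fun i hi => ?_, fun i hi => ?_⟩, h2⟩
    · have := h1 i
      rwa [if_pos hi] at this
    · have := h1 i
      rw [if_neg hi] at this
      exact mem_singleton.1 this
  · rintro ⟨⟨h1, h2⟩, h3⟩
    refine ⟨fun i => ?_, h3⟩
    by_cases hi : i ∈ S
    · rw [if_pos hi]; exact h1 i hi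
    · rw [if_neg hi]; exact mem_singleton.2 (h2 i hi)

open Classical in
theorem Om_step {ι β : Type} [Fintype ι] (A : ι → Finset β) (R : β → β → Prop) (b0 : β)
    (hR : ∀ x y, R x y → R y x) (q Δ : ℕ) (hq : 0 < q) (hA : ∀ i, q ≤ (A i).card)
    (hdeg : ∀ i, ∀ x ∈ A i, ∀ S : Finset ι, i ∉ S →
       ∑ j ∈ S, ((A j).filter (fun y => R x y)).card ≤ Δ)
    (h4 : 4 * Δ ≤ q) (n : ℕ) :
    ∀ S : Finset ι, S.card = n → ∀ i, i ∉ S →
      q * (Om A R b0 S).card ≤ 2 * (Om A R b0 (insert i S)).card := by
  induction n using Nat.strong_induction_on with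
  | _ n ih =>
    intro S hS i hi
    set N := (Om A R b0 S).card with hN
    set P := (Om A R b0 S) ×ˢ (A i) with hP
    set Pg := P.filter (fun p => ∀ j ∈ S, ¬ R p.2 (p.1 j)) with hPg
    set Pb := P.filter (fun p => ¬ ∀ j ∈ S, ¬ R p.2 (p.1 j)) with hPb
    have hcard : Pg.card + Pb.card = N * (A i).card := by
      rw [hPg, hPb, card_filter_add_card_filter_not, hP, card_product]
    -- good pairs inject
    have hgood : Pg.card ≤ (Om A R b0 (insert i S)).card := by
      refine card_le_card_of_injOn (fun p => Function.update p.1 i p.2) ?_ ?_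
      · intro p hp
        simp only [hPg, hP, coe_filter, mem_product, Set.mem_ofPred_eq] at hp
        obtain ⟨⟨h1, h2⟩, h3⟩ := hp
        rw [mem_Om] at h1
        obtain ⟨⟨h11, h12⟩, h13⟩ := h1
        rw [mem_coe, mem_Om]
        beta_reduce
        refine ⟨⟨?_, ?_⟩, ?_⟩
        · intro j hj
          by_cases hji : j = i
          · subst hji; simpa using h2
          · rw [Function.update_of_ne hji]
            exact h11 j (mem_of_mem_insert_of_ne hj hji)
        · intro j hj
          rw [mem_insert, not_or] at hj
          rw [Function.update_of_ne hj.1]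
          exact h12 j hj.2
        · intro j hj l hl hjl
          by_cases hji : j = i
          · subst hji
            rw [Function.update_self, Function.update_of_ne (Ne.symm hjl)]
            exact h3 l (mem_of_mem_insert_of_ne hl (Ne.symm hjl))
          · by_cases hli : l = i
            · subst hli
              rw [Function.update_self, Function.update_of_ne hjl]
              intro hr
              exact h3 j (mem_of_mem_insert_of_ne hj hjl) (hR _ _ hr)
            · rw [Function.update_of_ne hji, Function.update_of_ne hli]
              exact h13 j (mem_of_mem_insert_of_ne hj hji) l (mem_of_mem_insert_of_ne hl hli) hjl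
      · intro p hp p' hp' hpp
        simp only [hPg, hP, coe_filter, mem_product, Set.mem_ofPred_eq] at hp hp'
        obtain ⟨⟨h1, h2⟩, h3⟩ := hp
        obtain ⟨⟨h1', h2'⟩, h3'⟩ := hp'
        rw [mem_Om] at h1 h1'
        have e2 : p.2 = p'.2 := by
          have := congrFun hpp i
          simpa using this
        have e1 : p.1 = p'.1 := by
          funext j
          by_cases hji : j = i
          · subst hji
            rw [h1.1.2 j hi, h1'.1.2 j hi]
          · have := congrFun hpp j
            simpa [Function.update_of_ne hji] using this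
        exact Prod.ext e1 e2
    -- bad pairs are few
    have hbad : q * Pb.card ≤ (A i).card * (Δ * (2 * N)) := by
      have hsub : Pb ⊆ (A i).biUnion (fun x => S.biUnion (fun j =>
          ((A j).filter (fun y => R x y)).biUnion (fun y =>
            ((Om A R b0 S).filter (fun f => f j = y)) ×ˢ {x}))) := by
        intro p hp
        simp only [hPb, hP, mem_filter, mem_product, not_forall, not_not] at hp
        obtain ⟨⟨h1, h2⟩, j, hj, hr⟩ := hp
        have h1' := mem_Om.1 h1
        rw [mem_biUnion]
        refine ⟨p.2, h2, ?_⟩
        rw [mem_biUnion]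
        refine ⟨j, hj, ?_⟩
        rw [mem_biUnion]
        refine ⟨p.1 j, mem_filter.2 ⟨h1'.1.1 j hj, hr⟩, ?_⟩
        rw [mem_product]
        exact ⟨mem_filter.2 ⟨h1, rfl⟩, mem_singleton.2 rfl⟩
      have hfib : ∀ j ∈ S, ∀ y, q * ((Om A R b0 S).filter (fun f => f j = y)).card ≤ 2 * N := by
        intro j hj y
        have h1 : ((Om A R b0 S).filter (fun f => f j = y)).card ≤
            (Om A R b0 (S.erase j)).card := by
          refine card_le_card_of_injOn (fun f => Function.update f j b0) ?_ ?_
          · intro f hf
            simp only [coe_filter, Set.mem_ofPred_eq] at hf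
            obtain ⟨hf1, _⟩ := hf
            rw [mem_Om] at hf1
            obtain ⟨⟨h11, h12⟩, h13⟩ := hf1
            rw [mem_coe, mem_Om]
            beta_reduce
            refine ⟨⟨?_, ?_⟩, ?_⟩
            · intro l hl
              rw [mem_erase] at hl
              rw [Function.update_of_ne hl.1]
              exact h11 l hl.2
            · intro l hl
              rw [mem_erase, not_and_or, not_not] at hl
              by_cases hlj : l = j
              · subst hlj; simp
              · rw [Function.update_of_ne hlj]
                exact h12 l (hl.resolve_left hlj)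
            · intro l hl l' hl' hll
              rw [mem_erase] at hl hl'
              rw [Function.update_of_ne hl.1, Function.update_of_ne hl'.1]
              exact h13 l hl.2 l' hl'.2 hll
          · intro f hf f' hf' hff
            simp only [coe_filter, Set.mem_ofPred_eq] at hf hf'
            funext l
            by_cases hlj : l = j
            · subst hlj
              rw [hf.2, hf'.2]
            · have := congrFun hff l
              simpa [Function.update_of_ne hlj] using this
        have h2 := ih (S.erase j).card (by rw [← hS]; exact card_erase_lt_of_mem hj) (S.erase j) rfl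
          j (notMem_erase j S)
        rw [insert_erase hj] at h2
        exact (Nat.mul_le_mul_left q h1).trans h2
      calc q * Pb.card
          ≤ q * ∑ x ∈ A i, ∑ j ∈ S, ∑ y ∈ (A j).filter (fun y => R x y),
              ((Om A R b0 S).filter (fun f => f j = y)).card := by
            refine Nat.mul_le_mul_left q ((card_le_card hsub).trans ?_)
            refine card_biUnion_le.trans (sum_le_sum fun x _ => ?_)
            refine card_biUnion_le.trans (sum_le_sum fun j _ => ?_)
            refine card_biUnion_le.trans (sum_le_sum fun y _ => ?_)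
            rw [card_product, card_singleton, mul_one]
        _ = ∑ x ∈ A i, ∑ j ∈ S, ∑ y ∈ (A j).filter (fun y => R x y),
              q * ((Om A R b0 S).filter (fun f => f j = y)).card := by
            simp only [mul_sum]
        _ ≤ ∑ x ∈ A i, ∑ j ∈ S, ∑ _y ∈ (A j).filter (fun y => R x y), 2 * N := by
            refine sum_le_sum fun x _ => sum_le_sum fun j hj => sum_le_sum fun y _ => ?_
            exact hfib j hj y
        _ = ∑ x ∈ A i, (∑ j ∈ S, ((A j).filter (fun y => R x y)).card) * (2 * N) := by
            refine sum_congr rfl fun x _ => ?_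
            rw [sum_mul]
            refine sum_congr rfl fun j _ => ?_
            rw [sum_const, smul_eq_mul]
        _ ≤ ∑ _x ∈ A i, Δ * (2 * N) := by
            refine sum_le_sum fun x hx => ?_
            exact Nat.mul_le_mul_right _ (hdeg i x hx S hi)
        _ = (A i).card * (Δ * (2 * N)) := by
            rw [sum_const, smul_eq_mul]
    have h5 : 2 * Pb.card ≤ (A i).card * N := by
      have h6 : q * (2 * Pb.card) ≤ q * ((A i).card * N) := by
        calc q * (2 * Pb.card) = 2 * (q * Pb.card) := by ring
          _ ≤ 2 * ((A i).card * (Δ * (2 * N))) := Nat.mul_le_mul_left 2 hbad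
          _ = (4 * Δ) * ((A i).card * N) := by ring
          _ ≤ q * ((A i).card * N) := Nat.mul_le_mul_right _ h4
      exact Nat.le_of_mul_le_mul_left h6 hq
    have h7 : q * N ≤ (A i).card * N := Nat.mul_le_mul_right _ (hA i)
    have h8 : N * (A i).card = (A i).card * N := mul_comm _ _
    omega

/-- An independent transversal exists when the parts are at least four times as large as the
degrees. -/
theorem exists_indep_transversal {ι β : Type} [Fintype ι]
    (A : ι → Finset β) (R : β → β → Prop)
    (hR : ∀ x y, R x y → R y x) (q Δ : ℕ) (hq : 0 < q) (hA : ∀ i, q ≤ (A i).card)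
    (hdeg : ∀ i, ∀ x ∈ A i, ∀ S : Finset ι, i ∉ S → ∀ W : ι → Finset β,
       (∀ j ∈ S, W j ⊆ A j) → (∀ j ∈ S, ∀ y ∈ W j, R x y) → ∑ j ∈ S, (W j).card ≤ Δ)
    (h4 : 4 * Δ ≤ q) :
    ∃ f : ι → β, (∀ i, f i ∈ A i) ∧ ∀ i j, i ≠ j → ¬ R (f i) (f j) := by
  classical
  by_cases hne : Nonempty ι
  · obtain ⟨i0⟩ := hne
    have hpos : 0 < (A i0).card := lt_of_lt_of_le hq (hA i0)
    obtain ⟨b0, _⟩ := card_pos.1 hpos
    have key := Om_step A R b0 hR q Δ hq hA (by
      intro i x hx S hi
      exact hdeg i x hx S hi (fun j => (A j).filter (fun y => R x y))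
        (fun j _ => filter_subset _ _) (fun j _ y hy => (mem_filter.1 hy).2)) h4
    have hall : ∀ S : Finset ι, 0 < (Om A R b0 S).card := by
      intro S
      induction S using Finset.induction_on with
      | empty =>
        rw [card_pos]
        refine ⟨fun _ => b0, ?_⟩
        rw [mem_Om]
        simp
      | insert i S hi ih =>
        have := key S.card S rfl i hi
        have h9 : 0 < q * (Om A R b0 S).card := Nat.mul_pos hq ih
        omega
    obtain ⟨f, hf⟩ := card_pos.1 (hall univ)
    rw [mem_Om] at hf
    exact ⟨f, fun i => hf.1.1 i (mem_univ i), fun i j hij => hf.2 i (mem_univ i) j (mem_univ j) hij⟩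
  · exact ⟨fun i => (hne ⟨i⟩).elim, fun i => (hne ⟨i⟩).elim, fun i => (hne ⟨i⟩).elim⟩

end H104LHC
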